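import Mathlib.CategoryTheory.Category.Init
import Mathlib.Analysis.InnerProductSpace.Continuous
import Mathlib.Algebra.Order.Archimedean.Real.Hom
import Mathlib.Algebra.Order.Star.Real
import Mathlib.Combinatorics.SimpleGraph.Basic

/-!
Finite symmetric sets of unit vectors, their positive systems (topes) and simple systems.
-/

namespace Pool.Agent.MP_98010f_co

open Finset
open scoped RealInnerProductSpace Classical

variable {V : Type*} [NormedAddCommGroup V] [InnerProductSpace ℝ V]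

/-- a finite symmetric set of unit vectors -/
structure RS (Φ : Finset V) : Prop where
  unit : ∀ β ∈ Φ, ⟪β, β⟫ = 1
  neg : ∀ β ∈ Φ, -β ∈ Φ

/-- regular points -/
def Reg (Φ : Finset V) (x : V) : Prop := ∀ β ∈ Φ, ⟪β, x⟫ ≠ 0

/-- vectors of `Φ` positive at `x` -/
noncomputable def pos (Φ : Finset V) (x : V) : Finset V := Φ.filter (fun β => 0 < ⟪β, x⟫)

/-- positive systems -/
def IsTope (Φ P : Finset V) : Prop := ∃ x, Reg Φ x ∧ P = pos Φ x

/-- `a` is a wall of `P` -/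
def Simple (P : Finset V) (a : V) : Prop :=
  a ∈ P ∧ ∃ w, ⟪a, w⟫ = 0 ∧ ∀ β ∈ P, β ≠ a → 0 < ⟪β, w⟫

/-- the walls of `P` -/
noncomputable def sim (P : Finset V) : Finset V := P.filter (Simple P)

/-- crossing the wall `a` -/
noncomputable def flp (P : Finset V) (a : V) : Finset V := insert (-a) (P.erase a)

/-- `d` is the dual family of `Δ` -/
structure IsDual (Δ : Finset V) (d : V → V) : Prop where
  mem : ∀ j ∈ Δ, d j ∈ Submodule.span ℝ (Δ : Set V)
  dual : ∀ i ∈ Δ, ∀ j ∈ Δ, ⟪d j, i⟫ = if i = j then 1 else 0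

/-- `Δ` is a simple system for `P` with dual family `d` -/
structure IsBase (P Δ : Finset V) (d : V → V) : Prop extends IsDual Δ d where
  sub : Δ ⊆ P
  span : ∀ β ∈ P, β ∈ Submodule.span ℝ (Δ : Set V)
  nonneg : ∀ β ∈ P, ∀ j ∈ Δ, 0 ≤ ⟪d j, β⟫

lemma mem_pos {Φ : Finset V} {x β : V} : β ∈ pos Φ x ↔ β ∈ Φ ∧ 0 < ⟪β, x⟫ := by simp [pos]

lemma mem_sim {P : Finset V} {a : V} : a ∈ sim P ↔ Simple P a := by
  simp only [sim, mem_filter]; exact ⟨fun h => h.2, fun h => ⟨h.1, h⟩⟩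

lemma mem_flp {P : Finset V} {a β : V} : β ∈ flp P a ↔ β = -a ∨ (β ≠ a ∧ β ∈ P) := by
  simp [flp]

lemma RS.ne_neg {Φ : Finset V} (h : RS Φ) {β : V} (hβ : β ∈ Φ) : β ≠ -β := by
  intro he
  have h1 := h.unit β hβ
  have h2 : ⟪β, β⟫ = -⟪β, β⟫ := by
    conv_lhs => rw [he]
    rw [inner_neg_left, ← he]
  linarith

lemma IsTope.sub {Φ P : Finset V} (h : IsTope Φ P) : P ⊆ Φ := by
  obtain ⟨x, -, rfl⟩ := h; exact filter_subset _ _

lemma IsTope.or_neg {Φ P : Finset V} (hΦ : RS Φ) (h : IsTope Φ P) {β : V} (hβ : β ∈ Φ) :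
    β ∈ P ∨ -β ∈ P := by
  obtain ⟨x, hx, rfl⟩ := h
  rcases lt_or_gt_of_ne (hx β hβ) with h1 | h1
  · right; exact mem_pos.2 ⟨hΦ.neg β hβ, by rw [inner_neg_left]; linarith⟩
  · left; exact mem_pos.2 ⟨hβ, h1⟩

lemma IsTope.not_neg {Φ P : Finset V} (h : IsTope Φ P) {β : V} (hβ : β ∈ P) : -β ∉ P := by
  obtain ⟨x, -, rfl⟩ := h
  intro h2
  have h3 := (mem_pos.1 hβ).2
  have h4 := (mem_pos.1 h2).2
  rw [inner_neg_left] at h4
  linarith

lemma exists_lex (Φ : Finset V) (x y : V) :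
    ∃ t : ℝ, 0 < t ∧ ∀ β ∈ Φ, 0 < ⟪β, x⟫ → 0 < ⟪β, x + t • y⟫ := by
  have h : ∀ᶠ t : ℝ in nhdsWithin 0 (Set.Ioi 0), ∀ β ∈ Φ, 0 < ⟪β, x⟫ → 0 < ⟪β, x + t • y⟫ := by
    rw [Finset.eventually_all]
    intro β _
    by_cases hb : 0 < ⟪β, x⟫
    · have hc : Continuous fun t : ℝ => ⟪β, x + t • y⟫ := by fun_prop
      have := (hc.tendsto 0).eventually (lt_mem_nhds (show 0 < ⟪β, x + (0 : ℝ) • y⟫ by simpa using hb))
      exact (this.filter_mono nhdsWithin_le_nhds).mono fun t ht _ => ht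
    · exact Filter.Eventually.of_forall fun t h => absurd h hb
  obtain ⟨t, ht1, ht2⟩ := (h.and self_mem_nhdsWithin).exists
  exact ⟨t, ht2, ht1⟩

/-- a set that contains one of each pair `± β` and is positive at a point is a tope -/
lemma isTope_of_point {Φ Q : Finset V} (hQ : Q ⊆ Φ) (hor : ∀ β ∈ Φ, β ∈ Q ∨ -β ∈ Q) {x : V}
    (hx : ∀ β ∈ Q, 0 < ⟪β, x⟫) : Reg Φ x ∧ Q = pos Φ x := by
  refine ⟨?_, ?_⟩
  · intro β hβ
    rcases hor β hβ with h | h
    · exact (hx β h).ne'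
    · have := hx _ h
      rw [inner_neg_left] at this
      linarith
  · ext β
    rw [mem_pos]
    refine ⟨fun h => ⟨hQ h, hx β h⟩, fun h => ?_⟩
    rcases hor β h.1 with h1 | h1
    · exact h1
    · have := hx _ h1
      rw [inner_neg_left] at this
      linarith [h.2]

lemma isTope_of_wall {Φ Q : Finset V} (hΦ : RS Φ) (hQ : Q ⊆ Φ)
    (hor : ∀ β ∈ Φ, β ∈ Q ∨ -β ∈ Q) {a : V} (ha : Simple Q a) : IsTope Φ Q := by
  obtain ⟨haQ, w, hw1, hw2⟩ := ha
  obtain ⟨t, ht, h⟩ := exists_lex Φ w a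
  refine ⟨w + t • a, isTope_of_point hQ hor ?_⟩
  intro β hβ
  by_cases hb : β = a
  · subst hb
    rw [inner_add_right, hw1, inner_smul_right, hΦ.unit β (hQ haQ)]
    linarith
  · exact h β (hQ hβ) (hw2 β hβ hb)

lemma Simple.flp {P : Finset V} {a : V} (ha : Simple P a) : Simple (flp P a) (-a) := by
  obtain ⟨-, w, hw1, hw2⟩ := ha
  refine ⟨mem_flp.2 (Or.inl rfl), w, by rw [inner_neg_left, hw1, neg_zero], ?_⟩
  intro β hβ hne
  rcases mem_flp.1 hβ with h | h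
  · exact absurd h hne
  · exact hw2 β h.2 h.1

lemma IsTope.flp {Φ P : Finset V} (hΦ : RS Φ) (h : IsTope Φ P) {a : V} (ha : Simple P a) :
    IsTope Φ (flp P a) := by
  refine isTope_of_wall hΦ ?_ ?_ ha.flp
  · intro β hβ
    rcases mem_flp.1 hβ with h1 | h1
    · rw [h1]; exact hΦ.neg a (h.sub ha.1)
    · exact h.sub h1.2
  · intro β hβ
    by_cases h1 : β = a
    · right; exact mem_flp.2 (Or.inl (by rw [h1]))
    · by_cases h2 : β = -a
      · left; exact mem_flp.2 (Or.inl h2)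
      · rcases h.or_neg hΦ hβ with h3 | h3
        · left; exact mem_flp.2 (Or.inr ⟨h1, h3⟩)
        · right
          refine mem_flp.2 (Or.inr ⟨?_, h3⟩)
          intro h4
          exact h2 (by rw [← h4, neg_neg])

lemma flp_flp {Φ P : Finset V} (hΦ : RS Φ) (h : IsTope Φ P) {a : V} (ha : a ∈ P) :
    flp (flp P a) (-a) = P := by
  ext β
  simp only [mem_flp, neg_neg]
  constructor
  · rintro (h1 | ⟨h1, h2 | h2⟩)
    · rw [h1]; exact ha
    · exact absurd h2 h1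
    · exact h2.2
  · intro hβ
    by_cases h1 : β = a
    · exact Or.inl h1
    · refine Or.inr ⟨?_, Or.inr ⟨h1, hβ⟩⟩
      intro h2
      rw [h2] at hβ
      exact h.not_neg ha hβ

lemma IsDual.self {Δ : Finset V} {d : V → V} (h : IsDual Δ d) {j : V} (hj : j ∈ Δ) :
    ⟪d j, j⟫ = 1 := by rw [h.dual j hj j hj, if_pos rfl]

lemma IsDual.ne {Δ : Finset V} {d : V → V} (h : IsDual Δ d) {i j : V} (hi : i ∈ Δ) (hj : j ∈ Δ)
    (hij : i ≠ j) : ⟪d j, i⟫ = 0 := by rw [h.dual i hi j hj, if_neg hij]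

lemma IsDual.expand {Δ : Finset V} {d : V → V} (h : IsDual Δ d) {x : V}
    (hx : x ∈ Submodule.span ℝ (Δ : Set V)) : x = ∑ j ∈ Δ, ⟪d j, x⟫ • j := by
  induction hx using Submodule.span_induction with
  | mem x hx =>
    rw [sum_eq_single x]
    · rw [h.self hx, one_smul]
    · intro j hj hne
      rw [h.ne hx hj hne.symm, zero_smul]
    · intro hn; exact absurd hx hn
  | zero => simp
  | add x y _ _ hx hy =>
    simp only [inner_add_right, add_smul, sum_add_distrib]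
    rw [← hx, ← hy]
  | smul c x _ hx =>
    simp only [inner_smul_right, mul_smul]
    rw [← smul_sum, ← hx]

lemma eq_zero_of_orth {Δ : Finset V} {y : V} (hy : y ∈ Submodule.span ℝ (Δ : Set V))
    (h0 : ∀ i ∈ Δ, ⟪y, i⟫ = 0) : y = 0 := by
  have : ∀ x ∈ Submodule.span ℝ (Δ : Set V), ⟪y, x⟫ = 0 := by
    intro x hx
    induction hx using Submodule.span_induction with
    | mem x hx => exact h0 x hx
    | zero => simp
    | add x z _ _ hx hz => rw [inner_add_right, hx, hz, add_zero]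
    | smul c x _ hx => rw [inner_smul_right, hx, mul_zero]
  exact inner_self_eq_zero.1 (this y hy)

lemma IsDual.unique {Δ : Finset V} {d : V → V} (h : IsDual Δ d) {j y : V} (hj : j ∈ Δ)
    (hy : y ∈ Submodule.span ℝ (Δ : Set V)) (h1 : ∀ i ∈ Δ, ⟪y, i⟫ = if i = j then 1 else 0) :
    y = d j := by
  rw [← sub_eq_zero]
  apply eq_zero_of_orth (Submodule.sub_mem _ hy (h.mem j hj))
  intro i hi
  rw [inner_sub_left, h1 i hi, h.dual i hi j hj, sub_self]

lemma IsDual.expand' {Δ : Finset V} {d : V → V} (h : IsDual Δ d) {x : V}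
    (hx : x ∈ Submodule.span ℝ (Δ : Set V)) : x = ∑ j ∈ Δ, ⟪x, j⟫ • d j := by
  rw [← sub_eq_zero]
  apply eq_zero_of_orth (Submodule.sub_mem _ hx
    (Submodule.sum_mem _ fun j hj => Submodule.smul_mem _ _ (h.mem j hj)))
  intro i hi
  rw [inner_sub_left, sum_inner, sum_eq_single i]
  · rw [real_inner_smul_left, h.self hi, mul_one, sub_self]
  · intro j hj hne
    rw [real_inner_smul_left, h.ne hi hj hne.symm, mul_zero]
  · intro hn; exact absurd hi hn

lemma IsBase.inner_eq {P Δ : Finset V} {d : V → V} (h : IsBase P Δ d) {β : V} (hβ : β ∈ P)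
    (w : V) : ⟪β, w⟫ = ∑ j ∈ Δ, ⟪d j, β⟫ * ⟪j, w⟫ := by
  conv_lhs => rw [h.toIsDual.expand (h.span β hβ)]
  rw [sum_inner]
  exact sum_congr rfl fun j _ => real_inner_smul_left _ _ _

lemma IsBase.inner_nonneg {P Δ : Finset V} {d : V → V} (h : IsBase P Δ d) {β : V} (hβ : β ∈ P)
    {w : V} (hw : ∀ j ∈ Δ, 0 ≤ ⟪j, w⟫) : 0 ≤ ⟪β, w⟫ := by
  rw [h.inner_eq hβ]
  exact sum_nonneg fun j hj => mul_nonneg (h.nonneg β hβ j hj) (hw j hj)

/-- coordinates outside `S` vanish when their sum does -/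
lemma IsBase.expand_sub {P Δ : Finset V} {d : V → V} (h : IsBase P Δ d) {β : V} (hβ : β ∈ P)
    {S : Finset V} (hS : S ⊆ Δ) (h0 : ¬ 0 < ⟪β, ∑ i ∈ Δ \ S, d i⟫) :
    β = ∑ j ∈ S, ⟪d j, β⟫ • j := by
  have h1 : ∀ i ∈ Δ \ S, 0 ≤ ⟪β, d i⟫ := fun i hi => by
    rw [real_inner_comm]; exact h.nonneg β hβ i (mem_sdiff.1 hi).1
  rw [inner_sum] at h0
  have h2 : ∑ i ∈ Δ \ S, ⟪β, d i⟫ = 0 := le_antisymm (not_lt.1 h0) (sum_nonneg h1)
  rw [sum_eq_zero_iff_of_nonneg h1] at h2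
  conv_lhs => rw [h.toIsDual.expand (h.span β hβ)]
  symm
  apply sum_subset hS
  intro j hj hjS
  rw [real_inner_comm, h2 j (mem_sdiff.2 ⟨hj, hjS⟩), zero_smul]

lemma IsBase.eq_sim {Φ P Δ : Finset V} {d : V → V} (hΦ : RS Φ) (hP : P ⊆ Φ)
    (h : IsBase P Δ d) : Δ = sim P := by
  ext a
  rw [mem_sim]
  constructor
  · intro ha
    refine ⟨h.sub ha, ∑ i ∈ Δ \ {a}, d i, ?_, ?_⟩
    · rw [inner_sum]
      apply sum_eq_zero
      intro i hi
      rw [mem_sdiff, mem_singleton] at hi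
      rw [real_inner_comm]
      exact h.toIsDual.ne ha hi.1 (Ne.symm hi.2)
    · intro β hβ hne
      by_contra h0
      have h1 := h.expand_sub hβ (singleton_subset_iff.2 ha) h0
      rw [sum_singleton] at h1
      have h2 := hΦ.unit β (hP hβ)
      have h3 := h.nonneg β hβ a ha
      rw [h1, real_inner_smul_left, inner_smul_right, hΦ.unit a (hP (h.sub ha))] at h2
      have h4 : ⟪d a, β⟫ = 1 := by nlinarith
      rw [h4, one_smul] at h1
      exact hne h1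
  · rintro ⟨haP, w, hw1, hw2⟩
    by_contra ha
    have h1 : ∀ j ∈ Δ, 0 < ⟪j, w⟫ := fun j hj => hw2 j (h.sub hj) (fun e => ha (e ▸ hj))
    have h2 := h.inner_eq haP w
    rw [hw1, eq_comm, sum_eq_zero_iff_of_nonneg
      (fun j hj => mul_nonneg (h.nonneg a haP j hj) (h1 j hj).le)] at h2
    have h3 : a = 0 := by
      rw [h.toIsDual.expand (h.span a haP)]
      apply sum_eq_zero
      intro j hj
      rw [(mul_eq_zero.1 (h2 j hj)).resolve_right (h1 j hj).ne', zero_smul]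
    have h4 := hΦ.unit a (hP haP)
    rw [h3] at h4
    simp at h4

end Pool.Agent.MP_98010f_co
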