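import Pool.Agent.MP_98010f_co.Basic

/-!
Crossing a wall, and crossing a ridge inside a wall.
-/

set_option linter.unusedSectionVars false

namespace Pool.Agent.MP_98010f_co

open Finset
open scoped RealInnerProductSpace Classical

variable {V : Type*} [NormedAddCommGroup V] [InnerProductSpace ℝ V]

/-- the vectors of `Φ` in the open half plane bounded by the line of `a` and containing `β` -/
noncomputable def Y (Φ : Finset V) (a β : V) : Finset V :=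
  Φ.filter (fun γ => ∃ l k : ℝ, 0 < l ∧ γ = l • β + k • a)

lemma mem_Y {Φ : Finset V} {a β γ : V} :
    γ ∈ Y Φ a β ↔ γ ∈ Φ ∧ ∃ l k : ℝ, 0 < l ∧ γ = l • β + k • a := by simp [Y]

lemma mem_Y_self {Φ : Finset V} {a β : V} (h : β ∈ Φ) : β ∈ Y Φ a β :=
  mem_Y.2 ⟨h, 1, 0, one_pos, by simp⟩

lemma Y_eq {Φ : Finset V} {a β γ : V} (h : γ ∈ Y Φ a β) : Y Φ a γ = Y Φ a β := by
  obtain ⟨-, l, k, hl, rfl⟩ := mem_Y.1 h
  ext δ
  simp only [mem_Y]
  refine and_congr_right fun _ => ⟨?_, ?_⟩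
  · rintro ⟨l', k', hl', rfl⟩
    exact ⟨l' * l, l' * k + k', by positivity, by module⟩
  · rintro ⟨l', k', hl', rfl⟩
    refine ⟨l' / l, k' - l' / l * k, by positivity, ?_⟩
    rw [smul_add, smul_smul, smul_smul, div_mul_cancel₀ _ hl.ne']
    module

lemma mem_Y_neg {Φ : Finset V} (hΦ : RS Φ) {a β γ : V} : γ ∈ Y Φ a (-β) ↔ -γ ∈ Y Φ a β := by
  simp only [mem_Y]
  constructor
  · rintro ⟨h, l, k, hl, he⟩
    exact ⟨hΦ.neg _ h, l, -k, hl, by rw [he]; module⟩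
  · rintro ⟨h, l, k, hl, he⟩
    refine ⟨by simpa using hΦ.neg _ h, l, -k, hl, ?_⟩
    rw [← neg_neg γ, he]; module

lemma inner_sq_lt {a j : V} (ha : ⟪a, a⟫ = 1) (hj : ⟪j, j⟫ = 1) (h1 : j ≠ a) (h2 : j ≠ -a) :
    ⟪a, j⟫ ^ 2 < 1 := by
  have e1 : ⟪j - a, j - a⟫ = 2 - 2 * ⟪a, j⟫ := by
    rw [inner_sub_left, inner_sub_right, inner_sub_right, ha, hj, real_inner_comm a j]; ring
  have e2 : ⟪j + a, j + a⟫ = 2 + 2 * ⟪a, j⟫ := by
    rw [inner_add_left, inner_add_right, inner_add_right, ha, hj, real_inner_comm a j]; ring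
  have p1 : 0 < ⟪j - a, j - a⟫ := real_inner_self_pos.2 (sub_ne_zero.2 h1)
  have p2 : 0 < ⟪j + a, j + a⟫ := real_inner_self_pos.2 (fun h => h2 (eq_neg_of_add_eq_zero_left h))
  nlinarith

lemma inner_comb {a j : V} (ha : ⟪a, a⟫ = 1) (l k : ℝ) :
    ⟪a, l • j + k • a⟫ = l * ⟪a, j⟫ + k := by
  rw [inner_add_right, inner_smul_right, inner_smul_right, ha, mul_one]

lemma norm_comb {a j : V} (ha : ⟪a, a⟫ = 1) (hj : ⟪j, j⟫ = 1) {l k : ℝ}
    (h : ⟪l • j + k • a, l • j + k • a⟫ = 1) :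
    1 - ⟪a, l • j + k • a⟫ ^ 2 = l ^ 2 * (1 - ⟪a, j⟫ ^ 2) := by
  rw [inner_comb ha]
  simp only [inner_add_left, inner_add_right, real_inner_smul_left, inner_smul_right, ha, hj,
    real_inner_comm a j] at h
  nlinarith

lemma mono_c {a j : V} (ha : ⟪a, a⟫ = 1) (hj : ⟪j, j⟫ = 1) (hc : ⟪a, j⟫ ^ 2 < 1) {l k : ℝ}
    (hl : 0 < l) (hk : 0 ≤ k) (h : ⟪l • j + k • a, l • j + k • a⟫ = 1) :
    ⟪a, j⟫ ≤ ⟪a, l • j + k • a⟫ ∧ (⟪a, l • j + k • a⟫ = ⟪a, j⟫ → l • j + k • a = j) := by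
  have h1 := norm_comb ha hj h
  have h2 := inner_comb (j := j) ha l k
  generalize ⟪a, l • j + k • a⟫ = c' at h1 h2 ⊢
  generalize ⟪a, j⟫ = c at h1 h2 hc ⊢
  refine ⟨?_, ?_⟩
  · by_contra hlt
    push Not at hlt
    rcases le_total 0 c with h0 | h0
    · rcases le_total 1 l with h3 | h3
      · nlinarith
      · have h4 : 0 ≤ c' := by nlinarith
        have h5 : l ^ 2 ≤ 1 := by nlinarith
        nlinarith
    · rcases le_total l 1 with h3 | h3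
      · nlinarith
      · have h5 : 1 ≤ l ^ 2 := by nlinarith
        nlinarith
  · intro he
    rw [he] at h1 h2
    have h3 : l ^ 2 = 1 := by
      have : (l ^ 2 - 1) * (1 - c ^ 2) = 0 := by linarith
      rcases mul_eq_zero.1 this with h4 | h4 <;> linarith
    have h4 : l = 1 := by nlinarith
    have h5 : k = 0 := by rw [h4] at h2; linarith
    rw [h4, h5]; simp

section base

variable {Φ P Δ : Finset V} {d : V → V} {a j : V}

lemma IsBase.coef (hb : IsBase P Δ d) (ha : a ∈ Δ) (hj : j ∈ Δ) (hja : j ≠ a) (l k : ℝ) :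
    ⟪d j, l • j + k • a⟫ = l ∧ ⟪d a, l • j + k • a⟫ = k ∧
      ∀ i ∈ Δ, i ≠ a → i ≠ j → ⟪d i, l • j + k • a⟫ = 0 := by
  refine ⟨?_, ?_, ?_⟩
  · rw [inner_add_right, inner_smul_right, inner_smul_right, hb.toIsDual.self hj,
      hb.toIsDual.ne ha hj hja.symm]; ring
  · rw [inner_add_right, inner_smul_right, inner_smul_right, hb.toIsDual.self ha,
      hb.toIsDual.ne hj ha hja]; ring
  · intro i hi hia hij
    rw [inner_add_right, inner_smul_right, inner_smul_right, hb.toIsDual.ne hj hi hij.symm,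
      hb.toIsDual.ne ha hi hia.symm]; ring

lemma IsBase.Y_sub (hΦ : RS Φ) (hP : IsTope Φ P) (hb : IsBase P Δ d) (ha : a ∈ Δ) (hj : j ∈ Δ)
    (hja : j ≠ a) {γ : V} (hγ : γ ∈ Y Φ a j) :
    γ ∈ P ∧ γ ≠ a ∧ ∃ l k : ℝ, 0 < l ∧ 0 ≤ k ∧ γ = l • j + k • a := by
  obtain ⟨h1, l, k, hl, he⟩ := mem_Y.1 hγ
  obtain ⟨c1, c2, -⟩ := hb.coef ha hj hja l k
  rw [← he] at c1 c2
  have hP' : γ ∈ P := by
    rcases hP.or_neg hΦ h1 with h | h
    · exact h
    · have := hb.nonneg _ h j hj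
      rw [inner_neg_right] at this
      linarith
  refine ⟨hP', ?_, l, k, hl, c2 ▸ hb.nonneg γ hP' a ha, he⟩
  intro h
  rw [h, hb.toIsDual.ne ha hj hja.symm] at c1
  linarith

lemma IsBase.mem_Y_of_not_pos (hΦ : RS Φ) (hP : IsTope Φ P) (hb : IsBase P Δ d) (ha : a ∈ Δ)
    (hj : j ∈ Δ) (hja : j ≠ a) {β : V} (hβ : β ∈ P) (hβa : β ≠ a)
    (h0 : ¬ 0 < ⟪β, ∑ i ∈ Δ \ {j, a}, d i⟫) : β ∈ Y Φ a j := by
  have h1 := hb.expand_sub hβ (S := {j, a}) (by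
    intro i hi
    rcases mem_insert.1 hi with rfl | hi
    · exact hj
    · rw [mem_singleton.1 hi]; exact ha) h0
  rw [sum_pair hja] at h1
  refine mem_Y.2 ⟨hP.sub hβ, _, _, ?_, h1⟩
  rcases (hb.nonneg β hβ j hj).lt_or_eq with h | h
  · exact h
  · exfalso
    rw [← h, zero_smul, zero_add] at h1
    have h2 := hΦ.unit β (hP.sub hβ)
    have h3 := hb.nonneg β hβ a ha
    rw [h1, real_inner_smul_left, inner_smul_right, hΦ.unit a (hP.sub (hb.sub ha))] at h2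
    have h4 : ⟪d a, β⟫ = 1 := by nlinarith
    rw [h4, one_smul] at h1
    exact hβa h1

lemma IsBase.inner_sum_zero (hb : IsBase P Δ d) (ha : a ∈ Δ) (hj : j ∈ Δ) (hja : j ≠ a)
    (l k : ℝ) : ⟪l • j + k • a, ∑ i ∈ Δ \ {j, a}, d i⟫ = 0 := by
  rw [inner_sum]
  apply sum_eq_zero
  intro i hi
  simp only [mem_sdiff, mem_insert, mem_singleton, not_or] at hi
  rw [real_inner_comm]
  exact (hb.coef ha hj hja l k).2.2 i hi.1 hi.2.2 hi.2.1

lemma IsBase.c_lt (hΦ : RS Φ) (hP : IsTope Φ P) (ha : a ∈ P) {γ : V} (hγ : γ ∈ P)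
    (hne : γ ≠ a) : ⟪a, γ⟫ ^ 2 < 1 :=
  inner_sq_lt (hΦ.unit a (hP.sub ha)) (hΦ.unit γ (hP.sub hγ)) hne
    (fun h => hP.not_neg ha (h ▸ hγ))

lemma IsBase.exists_next (hΦ : RS Φ) (hP : IsTope Φ P) (hb : IsBase P Δ d) (ha : a ∈ Δ)
    (hj : j ∈ Δ) (hja : j ≠ a) :
    ∃ l k : ℝ, 0 < l ∧ 0 ≤ k ∧ l • j + k • a ∈ Y Φ a j ∧
      (∀ γ ∈ Y Φ a j, ⟪a, γ⟫ ≤ ⟪a, l • j + k • a⟫) ∧ Simple (flp P a) (l • j + k • a) := by
  have haΦ := hP.sub (hb.sub ha)
  have hau := hΦ.unit a haΦ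
  obtain ⟨j', hj', hmax⟩ := exists_max_image (Y Φ a j) (fun γ => ⟪a, γ⟫)
    ⟨j, mem_Y_self (hP.sub (hb.sub hj))⟩
  obtain ⟨hj'P, hj'a, l, k, hl, hk, rfl⟩ := hb.Y_sub hΦ hP ha hj hja hj'
  refine ⟨l, k, hl, hk, hj', hmax, mem_flp.2 (Or.inr ⟨hj'a, hj'P⟩), ?_⟩
  obtain ⟨t, ht, hlex⟩ := exists_lex Φ (∑ i ∈ Δ \ {j, a}, d i) ((k / l) • d j - d a)
  have hy : ∀ l' k' : ℝ, ⟪l' • j + k' • a, ∑ i ∈ Δ \ {j, a}, d i + t • ((k / l) • d j - d a)⟫ =
      t * (k / l * l' - k') := by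
    intro l' k'
    obtain ⟨c1, c2, -⟩ := hb.coef ha hj hja l' k'
    rw [inner_add_right, hb.inner_sum_zero ha hj hja, inner_smul_right, inner_sub_right,
      inner_smul_right, real_inner_comm, c1, real_inner_comm, c2, zero_add]
  refine ⟨_, by rw [hy l k, div_mul_cancel₀ _ hl.ne', sub_self, mul_zero], ?_⟩
  intro β hβ hne
  rcases mem_flp.1 hβ with h | ⟨h1, h2⟩
  · have e : -a = (0 : ℝ) • j + (-1 : ℝ) • a := by module
    rw [h, e, hy]
    linarith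
  · by_cases h0 : 0 < ⟪β, ∑ i ∈ Δ \ {j, a}, d i⟫
    · exact hlex β (hP.sub h2) h0
    · have hβY := hb.mem_Y_of_not_pos hΦ hP ha hj hja h2 h1 h0
      have hle := hmax β hβY
      rw [← Y_eq hj'] at hβY
      obtain ⟨-, l', k', hl', he⟩ := mem_Y.1 hβY
      have hk' : k' < 0 := by
        by_contra hk'
        push Not at hk'
        have hm := mono_c hau (hΦ.unit _ (hP.sub hj'P))
          (IsBase.c_lt hΦ hP (hb.sub ha) hj'P hj'a) hl' hk' (he ▸ hΦ.unit β (hP.sub h2))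
        rw [← he] at hm
        exact hne (hm.2 (le_antisymm hle hm.1))
      have e : β = (l' * l) • j + (l' * k + k') • a := by rw [he]; module
      rw [e, hy]
      have e2 : k / l * (l' * l) - (l' * k + k') = -k' := by field_simp; ring
      rw [e2]
      exact mul_pos ht (by linarith)

/-- crossing the ridge of `a` and `j` inside the wall `a` -/
noncomputable def xflp (Φ P : Finset V) (a j : V) : Finset V :=
  (P \ Y Φ a j) ∪ (Y Φ a j).image (fun γ => -γ)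

lemma mem_xflp {β : V} : β ∈ xflp Φ P a j ↔ (β ∈ P ∧ β ∉ Y Φ a j) ∨ -β ∈ Y Φ a j := by
  simp only [xflp, mem_union, mem_sdiff, mem_image]
  refine or_congr Iff.rfl ⟨?_, fun h => ⟨-β, h, neg_neg β⟩⟩
  rintro ⟨γ, h, rfl⟩
  rwa [neg_neg]

lemma IsBase.xflp_simple (hΦ : RS Φ) (hP : IsTope Φ P) (hb : IsBase P Δ d) (ha : a ∈ Δ)
    (hj : j ∈ Δ) (hja : j ≠ a) : Simple (xflp Φ P a j) a ∧ IsTope Φ (xflp Φ P a j) := by
  have hs : Simple (xflp Φ P a j) a := by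
    refine ⟨mem_xflp.2 (Or.inl ⟨hb.sub ha, fun h => (hb.Y_sub hΦ hP ha hj hja h).2.1 rfl⟩), ?_⟩
    obtain ⟨t, ht, hlex⟩ := exists_lex Φ (∑ i ∈ Δ \ {j, a}, d i) (-d j)
    have hy : ∀ l' k' : ℝ, ⟪l' • j + k' • a, ∑ i ∈ Δ \ {j, a}, d i + t • (-d j)⟫ = -(t * l') := by
      intro l' k'
      obtain ⟨c1, -, -⟩ := hb.coef ha hj hja l' k'
      rw [inner_add_right, hb.inner_sum_zero ha hj hja, inner_smul_right, inner_neg_right,
        real_inner_comm, c1]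
      ring
    refine ⟨∑ i ∈ Δ \ {j, a}, d i + t • (-d j), ?_, fun β hβ hne => ?_⟩
    · have := hy 0 1
      simpa using this
    · rcases mem_xflp.1 hβ with ⟨h1, h2⟩ | h
      · apply hlex β (hP.sub h1)
        by_contra h0
        exact h2 (hb.mem_Y_of_not_pos hΦ hP ha hj hja h1 hne h0)
      · obtain ⟨-, l, k, hl, he⟩ := mem_Y.1 h
        have e : β = (-l) • j + (-k) • a := by rw [← neg_neg β, he]; module
        rw [e, hy]
        nlinarith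
  refine ⟨hs, isTope_of_wall hΦ ?_ ?_ hs⟩
  · intro β hβ
    rcases mem_xflp.1 hβ with h | h
    · exact hP.sub h.1
    · simpa using hΦ.neg _ (mem_Y.1 h).1
  · intro β hβ
    by_cases h1 : β ∈ Y Φ a j
    · right; exact mem_xflp.2 (Or.inr (by simpa using h1))
    · by_cases h2 : -β ∈ Y Φ a j
      · left; exact mem_xflp.2 (Or.inr h2)
      · rcases hP.or_neg hΦ hβ with h | h
        · left; exact mem_xflp.2 (Or.inl ⟨h, h1⟩)
        · right; exact mem_xflp.2 (Or.inl ⟨h, h2⟩)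

end base

end Pool.Agent.MP_98010f_co
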