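import Pool.Agent.MP_98010f_co.Sines

/-!
Right angles at the flats where only two hyperplanes meet; closure under reflections.
-/

set_option linter.unusedSectionVars false

namespace Pool.Agent.MP_98010f_co

open Finset
open scoped RealInnerProductSpace Classical

variable {V : Type*} [NormedAddCommGroup V] [InnerProductSpace ℝ V]

/-- reflection in the hyperplane orthogonal to the unit vector `a` -/
noncomputable def rf (a x : V) : V := x - (2 * ⟪a, x⟫) • a

lemma inner_rf {a : V} (ha : ⟪a, a⟫ = 1) (x y : V) : ⟪rf a x, rf a y⟫ = ⟪x, y⟫ := by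
  simp only [rf, inner_sub_left, inner_sub_right, real_inner_smul_left, inner_smul_right, ha,
    real_inner_comm a x]
  ring

lemma rf_rf {a : V} (ha : ⟪a, a⟫ = 1) (x : V) : rf a (rf a x) = x := by
  simp only [rf, inner_sub_right, inner_smul_right, ha]
  module

lemma rf_add (a x y : V) : rf a (x + y) = rf a x + rf a y := by
  simp only [rf, inner_add_right]
  module

lemma rf_sum {ι : Type*} (a : V) (s : Finset ι) (f : ι → V) :
    rf a (∑ i ∈ s, f i) = ∑ i ∈ s, rf a (f i) := by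
  induction s using Finset.induction_on with
  | empty => simp [rf]
  | insert i s hi ih => rw [sum_insert hi, sum_insert hi, rf_add, ih]

/-- a chosen dual family -/
noncomputable def dl (Δ : Finset V) : V → V := if h : ∃ d, IsDual Δ d then h.choose else 0

lemma IsDual.dl {Δ : Finset V} {d : V → V} (h : IsDual Δ d) : IsDual Δ (dl Δ) := by
  have h' : ∃ d, IsDual Δ d := ⟨d, h⟩
  unfold MP_98010f_co.dl
  rw [dif_pos h']
  exact h'.choose_spec

lemma dl_image {Δ : Finset V} {φ d' : V → V} (hφ : Set.InjOn φ Δ)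
    (h : IsDual (Δ.image φ) (dl (Δ.image φ)))
    (h1 : ∀ j ∈ Δ, d' j ∈ Submodule.span ℝ (Δ.image φ : Set V))
    (h2 : ∀ i ∈ Δ, ∀ j ∈ Δ, ⟪d' j, φ i⟫ = if i = j then 1 else 0) :
    ∀ j ∈ Δ, dl (Δ.image φ) (φ j) = d' j := by
  intro j hj
  symm
  apply h.unique (mem_image_of_mem φ hj) (h1 j hj)
  intro i hi
  obtain ⟨i, hi', rfl⟩ := mem_image.1 hi
  rw [h2 i hi' j hj]
  by_cases hij : i = j
  · rw [if_pos hij, if_pos (by rw [hij])]
  · rw [if_neg hij, if_neg (fun e => hij (hφ hi' hj e))]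

/-- trace of the inverse Gram matrix -/
noncomputable def trc (Δ : Finset V) : ℝ := ∑ j ∈ Δ, ⟪dl Δ j, dl Δ j⟫

/-- the incentre -/
noncomputable def inc (Δ : Finset V) : V := ∑ j ∈ Δ, dl Δ j

variable {Φ P : Finset V} {a : V}

lemma Good.dual (hG : Good Φ) (hP : IsTope Φ P) : IsDual (sim P) (dl (sim P)) := by
  obtain ⟨d, hb⟩ := hG.base P hP
  exact hb.toIsDual.dl

lemma Good.span_le (hG : Good Φ) {P Q : Finset V} (hP : IsTope Φ P) (hQ : IsTope Φ Q) :
    Submodule.span ℝ (sim P : Set V) ≤ Submodule.span ℝ (sim Q : Set V) := by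
  obtain ⟨d, hb⟩ := hG.base Q hQ
  rw [Submodule.span_le]
  intro β hβ
  rcases hQ.or_neg hG.toRS (hP.sub (mem_sim.1 hβ).1) with h | h
  · exact hb.span β h
  · simpa using hb.span _ h

lemma Good.inv_eq (hG : Good Φ) {P Q : Finset V} (hP : IsTope Φ P) (hQ : IsTope Φ Q) :
    trc (sim Q) = trc (sim P) ∧ ⟪inc (sim Q), inc (sim Q)⟫ = ⟪inc (sim P), inc (sim P)⟫ := by
  obtain ⟨g, hg⟩ := hG.cong P Q hP hQ
  have hd := hG.dual hP
  have hd' := hG.dual hQ
  rw [← hg] at hd' ⊢
  have h := dl_image (d' := fun j => g (dl (sim P) j)) g.injective.injOn hd' (by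
    intro j hj
    rw [coe_image]
    exact Submodule.apply_mem_span_image_of_mem_span (g.toLinearEquiv.toLinearMap) (hd.mem j hj))
    (by
      intro i hi j hj
      rw [LinearIsometryEquiv.inner_map_map, hd.dual i hi j hj])
  refine ⟨?_, ?_⟩
  · unfold trc
    rw [sum_image g.injective.injOn]
    exact sum_congr rfl fun j hj => by rw [h j hj, LinearIsometryEquiv.inner_map_map]
  · unfold inc
    rw [sum_image g.injective.injOn, sum_congr rfl h, ← map_sum, LinearIsometryEquiv.inner_map_map]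

/-- the defect vector -/
noncomputable def dfc (Φ Δ : Finset V) (a : V) : V :=
  ∑ j ∈ Δ.filter (fun j => j ≠ a ∧ Rk Φ a j), (2 * ⟪a, j⟫) • dl Δ j

lemma inner_dfc {Δ : Finset V} (hd : IsDual Δ (dl Δ)) {i : V} (hi : i ∈ Δ) :
    ⟪dfc Φ Δ a, i⟫ = if i ≠ a ∧ Rk Φ a i then 2 * ⟪a, i⟫ else 0 := by
  unfold dfc
  rw [sum_inner]
  split_ifs with h
  · rw [sum_eq_single i]
    · rw [real_inner_smul_left, hd.self hi, mul_one]
    · intro j hj hne
      rw [real_inner_smul_left, hd.ne hi (mem_filter.1 hj).1 hne.symm, mul_zero]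
    · intro hn; exact absurd (mem_filter.2 ⟨hi, h⟩) hn
  · apply sum_eq_zero
    intro j hj
    rw [real_inner_smul_left, hd.ne hi (mem_filter.1 hj).1 (fun e => h (e ▸ (mem_filter.1 hj).2)),
      mul_zero]

lemma Good.flip_dual (hG : Good Φ) (hP : IsTope Φ P) (ha : a ∈ sim P) :
    ⟪inc (sim (flp P a)), dl (sim (flp P a)) (-a)⟫ = ⟪inc (sim P), dl (sim P) a⟫ ∧
    ⟪inc (sim P), dfc Φ (sim P) a⟫ = -(⟪dfc Φ (sim P) a, dfc Φ (sim P) a⟫ / 2) := by
  have hP' := hP.flp hG.toRS (mem_sim.1 ha)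
  have hd := hG.dual hP
  have hd' := hG.dual hP'
  have hsp := hG.span_le hP hP'
  obtain ⟨i1, i2⟩ := hG.inv_eq hP hP'
  have hcard := hG.card_eq hP' hP
  have hau := hG.unit a (hP.sub (mem_sim.1 ha).1)
  rw [hG.flip_struct' hP ha] at hd' hsp i1 i2 hcard ⊢
  set φ : V → V := fun j => if j ≠ a ∧ Rk Φ a j then j else j - (2 * ⟪a, j⟫) • a with hφ
  set D := dfc Φ (sim P) a with hD
  have hinj : Set.InjOn φ (sim P) := card_image_iff.1 hcard
  have hφa : φ a = -a := by
    simp only [hφ]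
    rw [if_neg (by simp), hau]; module
  have hDa : ⟪D, a⟫ = 0 := by rw [hD, inner_dfc hd ha, if_neg (by simp)]
  have hDm : D ∈ Submodule.span ℝ (sim P : Set V) :=
    Submodule.sum_mem _ fun j hj => Submodule.smul_mem _ _ (hd.mem j (mem_filter.1 hj).1)
  have h := dl_image (d' := fun j => rf a (dl (sim P) j + if j = a then D else 0)) hinj hd' (by
      intro j hj
      apply hsp
      refine Submodule.sub_mem _ (Submodule.add_mem _ (hd.mem j hj) ?_)
        (Submodule.smul_mem _ _ (Submodule.subset_span ha))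
      split_ifs
      · exact hDm
      · exact Submodule.zero_mem _)
    (by
      intro i hi j hj
      have hDi := inner_dfc (Φ := Φ) (a := a) hd hi
      rw [← hD] at hDi
      by_cases hR : i ≠ a ∧ Rk Φ a i
      · have e : φ i = rf a (rf a i) := by rw [rf_rf hau]; simp only [hφ, if_pos hR]
        rw [e, inner_rf hau, rf, inner_sub_right, inner_smul_right, inner_add_left, inner_add_left,
          hd.dual i hi j hj]
        rw [if_pos hR] at hDi
        by_cases hja : j = a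
        · rw [if_pos hja, hDi, hDa, hja, hd.self ha]; ring
        · rw [if_neg hja, hd.ne ha hj (Ne.symm hja)]; simp
      · have e : φ i = rf a i := by simp only [hφ, if_neg hR, rf]
        rw [e, inner_rf hau, inner_add_left, hd.dual i hi j hj]
        rw [if_neg hR] at hDi
        by_cases hja : j = a
        · rw [if_pos hja, hDi, add_zero]
        · rw [if_neg hja, inner_zero_left, add_zero])
  have hz : inc ((sim P).image φ) = rf a (inc (sim P) + D) := by
    unfold inc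
    rw [sum_image hinj, sum_congr rfl h, ← rf_sum, sum_add_distrib, sum_ite_eq', if_pos ha]
  have ht : ⟪dl (sim P) a + D, dl (sim P) a + D⟫ = ⟪dl (sim P) a, dl (sim P) a⟫ := by
    unfold trc at i1
    rw [sum_image hinj, sum_congr rfl (fun j hj => by rw [h j hj, inner_rf hau]),
      ← add_sum_erase _ _ ha, ← add_sum_erase _ _ ha, if_pos rfl,
      sum_congr rfl (fun j hj => by rw [if_neg (mem_erase.1 hj).1, add_zero])] at i1
    linarith
  rw [hz, inner_rf hau] at i2
  rw [hz, ← hφa, h a ha, inner_rf hau, if_pos rfl]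
  simp only [inner_add_left, inner_add_right] at ht i2 ⊢
  rw [real_inner_comm (dl (sim P) a) D] at ht ⊢
  rw [real_inner_comm (inc (sim P)) D] at i2
  constructor <;> linarith

lemma Rk.symm {j : V} (h : Rk Φ a j) : Rk Φ j a := fun l k hm =>
  (h k l (by rwa [add_comm])).symm

lemma Rk.neg_left {j : V} (h : Rk Φ a j) : Rk Φ (-a) j := fun l k hm => by
  have := h l (-k) (by rwa [neg_smul, ← smul_neg])
  simpa using this

/-- sum of the cosines at the simple flats in the wall `a` -/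
noncomputable def ecs (Φ Δ : Finset V) (a : V) : ℝ :=
  ∑ j ∈ Δ.filter (fun j => j ≠ a ∧ Rk Φ a j), ⟪a, j⟫

lemma Good.ecs_flip (hG : Good Φ) (hP : IsTope Φ P) (ha : a ∈ sim P) :
    ecs Φ (sim (flp P a)) (-a) = -ecs Φ (sim P) a := by
  have hau := hG.unit a (hP.sub (mem_sim.1 ha).1)
  have : (sim (flp P a)).filter (fun j => j ≠ -a ∧ Rk Φ (-a) j) =
      (sim P).filter (fun j => j ≠ a ∧ Rk Φ a j) := by
    rw [hG.flip_struct' hP ha]
    ext i
    simp only [mem_filter, mem_image]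
    constructor
    · rintro ⟨⟨j, hj, rfl⟩, h1, h2⟩
      by_cases hR : j ≠ a ∧ Rk Φ a j
      · rw [if_pos hR]; exact ⟨hj, hR⟩
      · exfalso
        rw [if_neg hR] at h1 h2
        have hja : j ≠ a := by
          intro e
          apply h1
          rw [e, hau]; module
        have h3 := h2 1 (-(2 * ⟪a, j⟫)) (by
          have e : (1 : ℝ) • (j - (2 * ⟪a, j⟫) • a) + (-(2 * ⟪a, j⟫)) • -a = j := by module
          rw [e]; exact hP.sub (mem_sim.1 hj).1)
        have h4 : 2 * ⟪a, j⟫ = 0 := by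
          rcases h3 with h | h
          · exact absurd h one_ne_zero
          · linarith
        rw [h4, zero_smul, sub_zero] at h2
        exact hR ⟨hja, by simpa using h2.neg_left⟩
    · rintro ⟨hi, hR⟩
      refine ⟨⟨i, hi, if_pos hR⟩, ?_, hR.2.neg_left⟩
      intro e
      exact hP.not_neg (mem_sim.1 ha).1 (e ▸ (mem_sim.1 hi).1)
  unfold ecs
  rw [this, ← sum_neg_distrib]
  exact sum_congr rfl fun j _ => inner_neg_left _ _

theorem Good.dfc_zero (hG : Good Φ) (hP : IsTope Φ P) (ha : a ∈ sim P) : dfc Φ (sim P) a = 0 := by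
  set 𝒯 := Φ.powerset.filter (IsTope Φ) with h𝒯
  have hT : ∀ Q, Q ∈ 𝒯 ↔ IsTope Φ Q := fun Q => by
    rw [h𝒯, mem_filter, mem_powerset]; exact ⟨fun h => h.2, fun h => ⟨h.sub, h⟩⟩
  have h1 : ∑ x ∈ 𝒯.sigma (fun Q => sim Q),
      ⟪inc (sim x.1), dl (sim x.1) x.2⟫ * ecs Φ (sim x.1) x.2 = 0 := by
    refine sum_involution (fun x _ => ⟨flp x.1 x.2, -x.2⟩) ?_ ?_ ?_ ?_
    · intro x hx
      obtain ⟨g1, g2⟩ := mem_sigma.1 hx
      rw [hT] at g1
      simp only
      rw [(hG.flip_dual g1 g2).1, hG.ecs_flip g1 g2]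
      ring
    · intro x hx _ he
      obtain ⟨g1, g2⟩ := mem_sigma.1 hx
      rw [hT] at g1
      have : -x.2 = x.2 := congrArg (fun y : (Σ _ : Finset V, V) => y.2) he
      exact hG.toRS.ne_neg (g1.sub (mem_sim.1 g2).1) this.symm
    · intro x hx
      obtain ⟨g1, g2⟩ := mem_sigma.1 hx
      rw [hT] at g1
      exact mem_sigma.2 ⟨(hT _).2 (g1.flp hG.toRS (mem_sim.1 g2)), mem_sim.2 (mem_sim.1 g2).flp⟩
    · intro x hx
      obtain ⟨g1, g2⟩ := mem_sigma.1 hx
      rw [hT] at g1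
      simp only [flp_flp hG.toRS g1 (mem_sim.1 g2).1, neg_neg]
  have h2 : ∀ Q ∈ 𝒯, ∑ j ∈ sim Q, ⟪inc (sim Q), dl (sim Q) j⟫ * ecs Φ (sim Q) j =
      ∑ b ∈ sim Q, -(⟪dfc Φ (sim Q) b, dfc Φ (sim Q) b⟫ / 4) := by
    intro Q hQ
    rw [hT] at hQ
    have e1 : ∀ b ∈ sim Q, -(⟪dfc Φ (sim Q) b, dfc Φ (sim Q) b⟫ / 4) =
        ∑ j ∈ sim Q, if j ≠ b ∧ Rk Φ b j then ⟪inc (sim Q), dl (sim Q) j⟫ * ⟪j, b⟫ else 0 := by
      intro b hb
      have h3 := (hG.flip_dual hQ hb).2
      have h4 : ⟪inc (sim Q), dfc Φ (sim Q) b⟫ = 2 * ∑ j ∈ (sim Q).filter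
          (fun j => j ≠ b ∧ Rk Φ b j), ⟪inc (sim Q), dl (sim Q) j⟫ * ⟪j, b⟫ := by
        unfold dfc
        rw [inner_sum, mul_sum]
        exact sum_congr rfl fun j _ => by rw [inner_smul_right, real_inner_comm j b]; ring
      rw [← sum_filter]
      linarith
    rw [sum_congr rfl e1, sum_comm]
    apply sum_congr rfl
    intro j _
    unfold ecs
    rw [mul_sum, sum_filter]
    apply sum_congr rfl
    intro b _
    exact if_congr ⟨fun h => ⟨h.1.symm, h.2.symm⟩, fun h => ⟨h.1.symm, h.2.symm⟩⟩ rfl rfl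
  rw [sum_sigma, sum_congr rfl h2] at h1
  have hnp : ∀ Q b, -(⟪dfc Φ (sim Q) b, dfc Φ (sim Q) b⟫ / 4) ≤ 0 := fun Q b => by
    have := real_inner_self_nonneg (x := dfc Φ (sim Q) b)
    linarith
  have h3 := (sum_eq_zero_iff_of_nonpos (fun Q _ => sum_nonpos fun b _ => hnp Q b)).1 h1 P
    ((hT P).2 hP)
  have h4 := (sum_eq_zero_iff_of_nonpos (fun b _ => hnp P b)).1 h3 a ha
  exact inner_self_eq_zero.1 (show ⟪dfc Φ (sim P) a, dfc Φ (sim P) a⟫ = 0 by linarith)

/-- adjacent chambers are mirror images -/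
theorem Good.sim_flp (hG : Good Φ) (hP : IsTope Φ P) (ha : a ∈ sim P) :
    sim (flp P a) = (sim P).image (rf a) := by
  rw [hG.flip_struct' hP ha]
  apply image_congr
  intro j hj
  simp only [rf]
  split_ifs with hR
  · have h := inner_dfc (Φ := Φ) (a := a) (hG.dual hP) hj
    rw [hG.dfc_zero hP ha, if_pos hR, inner_zero_left] at h
    rw [← h, zero_smul, sub_zero]
  · rfl

lemma Good.connect (hG : Good Φ) (C : Finset V → Prop) {Q : Finset V} (hQ : IsTope Φ Q)
    (hstep : ∀ P, IsTope Φ P → ∀ a ∈ sim P, a ∉ Q → C P → C (flp P a)) :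
    ∀ P, IsTope Φ P → C P → C Q := by
  have key : ∀ n, ∀ P, IsTope Φ P → C P → (P \ Q).card = n → C Q := by
    intro n
    induction n using Nat.strong_induction_on with
    | _ n ih =>
      intro P hP hC hn
      by_cases hsub : P ⊆ Q
      · rwa [← hP.eq_of_subset hG.toRS hQ hsub]
      · obtain ⟨j, hj, hjQ⟩ := hG.exists_sep hP hQ hsub
        have hjP := (mem_sim.1 hj).1
        refine ih _ ?_ _ (hP.flp hG.toRS (mem_sim.1 hj)) (hstep P hP j hj hjQ hC) rfl
        rw [← hn]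
        apply card_lt_card
        refine ⟨fun β hβ => ?_, fun hcon => ?_⟩
        · obtain ⟨g1, g2⟩ := mem_sdiff.1 hβ
          rcases mem_flp.1 g1 with g3 | g3
          · exact absurd (g3 ▸ (hQ.or_neg hG.toRS (hP.sub hjP)).resolve_left hjQ) g2
          · exact mem_sdiff.2 ⟨g3.2, g2⟩
        · have g1 := (mem_sdiff.1 (hcon (mem_sdiff.2 ⟨hjP, hjQ⟩))).1
          rcases mem_flp.1 g1 with g3 | g3
          · exact hG.toRS.ne_neg (hP.sub hjP) g3
          · exact g3.1 rfl
  exact fun P hP hC => key _ P hP hC rfl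

lemma Good.exists_simple (hG : Good Φ) (hP : IsTope Φ P) {β : V} (hβ : β ∈ Φ) :
    ∃ Q, IsTope Φ Q ∧ β ∈ sim Q := by
  have main : ∀ P, IsTope Φ P → ∀ β ∈ P, ∃ Q, IsTope Φ Q ∧ β ∈ sim Q := by
    rintro P ⟨x, hx, rfl⟩ β hβ
    have hx' : Reg Φ (-x) := fun γ hγ => by rw [inner_neg_right]; exact neg_ne_zero.2 (hx γ hγ)
    by_contra hcon
    push Not at hcon
    have := hG.connect (fun R => β ∈ R) (Q := pos Φ (-x)) ⟨-x, hx', rfl⟩ (by
      intro R hR a ha _ hb
      exact mem_flp.2 (Or.inr ⟨fun e => hcon R hR (e ▸ ha), hb⟩)) _ ⟨x, hx, rfl⟩ hβ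
    have h1 := (mem_pos.1 this).2
    have h2 := (mem_pos.1 hβ).2
    rw [inner_neg_right] at h1
    linarith
  rcases hP.or_neg hG.toRS hβ with h | h
  · exact main P hP β h
  · obtain ⟨Q, hQ, h1⟩ := main P hP _ h
    exact ⟨flp Q (-β), hQ.flp hG.toRS (mem_sim.1 h1), by simpa using mem_sim.2 (mem_sim.1 h1).flp⟩

lemma rf_conj {a : V} (ha : ⟪a, a⟫ = 1) (b x : V) : rf a (rf b x) = rf (rf a b) (rf a x) := by
  have h := inner_rf ha b x
  rw [show rf (rf a b) (rf a x) = rf a x - (2 * ⟪rf a b, rf a x⟫) • rf a b from rfl, h]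
  simp only [rf, inner_sub_right, inner_smul_right]
  module

/-- Main abstract theorem: `Φ` is stable under the reflections in its members. -/
theorem Good.rf_mem (hG : Good Φ) (hP : IsTope Φ P) {a β : V} (ha : a ∈ Φ) (hβ : β ∈ Φ) :
    rf a β ∈ Φ := by
  obtain ⟨P1, hP1, ha1⟩ := hG.exists_simple hP ha
  obtain ⟨P2, hP2, hβ2⟩ := hG.exists_simple hP hβ
  have hau := hG.unit a ha
  obtain ⟨R, hR, hRe⟩ := hG.connect (fun R => ∃ R', IsTope Φ R' ∧ sim R' = (sim R).image (rf a)) hP2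
    (by
      rintro R hR b hb - ⟨R', hR', he⟩
      have hb' : rf a b ∈ sim R' := he ▸ mem_image_of_mem _ hb
      refine ⟨flp R' (rf a b), hR'.flp hG.toRS (mem_sim.1 hb'), ?_⟩
      rw [hG.sim_flp hR' hb', hG.sim_flp hR hb, he, image_image, image_image]
      apply image_congr
      intro x _
      exact (rf_conj hau b x).symm)
    P1 hP1 ⟨flp P1 a, hP1.flp hG.toRS (mem_sim.1 ha1), hG.sim_flp hP1 ha1⟩
  exact hR.sub (mem_sim.1 (hRe ▸ mem_image_of_mem _ hβ2)).1

end Pool.Agent.MP_98010f_co
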