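import Mathlib.Algebra.Module.Submodule.Union
import Mathlib.Analysis.Normed.Group.AddTorsor
import Mathlib.Analysis.InnerProductSpace.Orthogonal
import Pool.Agent.MP_98010f_co.Right

/-!
Existence of a simplicial chamber (Shannon), in dual form.
-/

set_option linter.unusedSectionVars false

namespace Pool.Agent.MP_98010f_co

open Finset
open scoped RealInnerProductSpace Classical

variable {V : Type*} [NormedAddCommGroup V] [InnerProductSpace ℝ V]

lemma exists_generic (S : Finset V) (h : ∀ y ∈ S, y ≠ 0) : ∃ x : V, ∀ y ∈ S, ⟪y, x⟫ ≠ 0 := by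
  obtain ⟨x, hx⟩ := Submodule.exists_forall_notMem_of_forall_ne_top
    (fun y : S => (ℝ ∙ (y : V))ᗮ) (fun y he => by
      have : (y : V) ∈ (ℝ ∙ (y : V))ᗮ := he ▸ Submodule.mem_top
      rw [Submodule.mem_orthogonal_singleton_iff_inner_right] at this
      exact h y y.2 (inner_self_eq_zero.1 this))
  exact ⟨x, fun y hy h0 => hx ⟨y, hy⟩ (Submodule.mem_orthogonal_singleton_iff_inner_right.2 h0)⟩

lemma isDual_image {Δ : Finset V} {φ d' : V → V} (hφ : Set.InjOn φ Δ)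
    (h1 : ∀ j ∈ Δ, d' j ∈ Submodule.span ℝ (Δ.image φ : Set V))
    (h2 : ∀ i ∈ Δ, ∀ j ∈ Δ, ⟪d' j, φ i⟫ = if i = j then 1 else 0) :
    IsDual (Δ.image φ) (dl (Δ.image φ)) := by
  have hinv : ∀ j ∈ Δ, Function.invFunOn φ Δ (φ j) = j := fun j hj => hφ.leftInvOn_invFunOn hj
  refine IsDual.dl (d := fun y => d' (Function.invFunOn φ Δ y)) ⟨?_, ?_⟩
  · intro y hy
    obtain ⟨j, hj, rfl⟩ := mem_image.1 hy
    rw [hinv j hj]; exact h1 j hj
  · intro x hx y hy
    obtain ⟨i, hi, rfl⟩ := mem_image.1 hx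
    obtain ⟨j, hj, rfl⟩ := mem_image.1 hy
    rw [hinv j hj, h2 i hi j hj]
    by_cases hij : i = j
    · rw [if_pos hij, if_pos (by rw [hij])]
    · rw [if_neg hij, if_neg (fun e => hij (hφ hi hj e))]

lemma IsDual.insert {Δ : Finset V} {d : V → V} (h : IsDual Δ d) {v : V}
    (hv : v ∉ Submodule.span ℝ (Δ : Set V)) : ∃ d', IsDual (insert v Δ) d' := by
  have hvΔ : v ∉ Δ := fun hm => hv (Submodule.subset_span hm)
  set u := v - ∑ j ∈ Δ, ⟪d j, v⟫ • j with hu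
  have hp : ∑ j ∈ Δ, ⟪d j, v⟫ • j ∈ Submodule.span ℝ (Δ : Set V) :=
    Submodule.sum_mem _ fun j hj => Submodule.smul_mem _ _ (Submodule.subset_span hj)
  have hu0 : u ≠ 0 := fun e => hv (by rw [sub_eq_zero.1 e]; exact hp)
  have hud : ∀ i ∈ Δ, ⟪d i, u⟫ = 0 := by
    intro i hi
    rw [hu, inner_sub_right, inner_sum, sum_eq_single i]
    · rw [inner_smul_right, h.self hi, mul_one, sub_self]
    · intro j hj hne
      rw [inner_smul_right, h.ne hj hi hne, mul_zero]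
    · intro hn; exact absurd hi hn
  have hus : ∀ x ∈ Submodule.span ℝ (Δ : Set V), ⟪u, x⟫ = 0 := by
    intro x hx
    rw [h.expand' hx, inner_sum]
    exact sum_eq_zero fun j hj => by rw [inner_smul_right, real_inner_comm (d j) u, hud j hj, mul_zero]
  have huu : 0 < ⟪u, u⟫ := real_inner_self_pos.2 hu0
  have huv : ⟪u, v⟫ = ⟪u, u⟫ := by
    conv_rhs => rw [hu]
    rw [inner_sub_right, ← hu, hus _ hp, sub_zero]
  have hmono : Submodule.span ℝ (Δ : Set V) ≤ Submodule.span ℝ ((Insert.insert v Δ : Finset V) : Set V) :=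
    Submodule.span_mono (by simp)
  have hum : u ∈ Submodule.span ℝ ((Insert.insert v Δ : Finset V) : Set V) :=
    Submodule.sub_mem _ (Submodule.subset_span (by simp)) (hmono hp)
  refine ⟨fun j => if j = v then ⟪u, u⟫⁻¹ • u else d j - ⟪d j, v⟫ • ⟪u, u⟫⁻¹ • u, ?_, ?_⟩
  · intro j hj
    by_cases hjv : j = v
    · simp only [if_pos hjv]; exact Submodule.smul_mem _ _ hum
    · simp only [if_neg hjv]
      exact Submodule.sub_mem _ (hmono (h.mem j ((mem_insert.1 hj).resolve_left hjv)))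
        (Submodule.smul_mem _ _ (Submodule.smul_mem _ _ hum))
  · intro i hi j hj
    have h1 : ⟪⟪u, u⟫⁻¹ • u, i⟫ = if i = v then 1 else 0 := by
      rw [real_inner_smul_left]
      split_ifs with hiv
      · rw [hiv, huv, inv_mul_cancel₀ huu.ne']
      · rw [hus i (Submodule.subset_span ((mem_insert.1 hi).resolve_left hiv)), mul_zero]
    by_cases hjv : j = v
    · simp only [if_pos hjv]; rw [h1, hjv]
    · simp only [if_neg hjv]
      have hj' := (mem_insert.1 hj).resolve_left hjv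
      rw [inner_sub_left, real_inner_smul_left, h1]
      by_cases hiv : i = v
      · rw [if_pos hiv, if_neg (fun e : i = j => hjv (e ▸ hiv)), hiv, mul_one, sub_self]
      · rw [if_neg hiv, mul_zero, sub_zero, h.dual i ((mem_insert.1 hi).resolve_left hiv) j hj']

lemma IsDual.pivot {Δ : Finset V} {d : V → V} (h : IsDual Δ d) {β i : V}
    (hβ : β ∈ Submodule.span ℝ (Δ : Set V)) (hi : i ∈ Δ) (hb : ⟪d i, β⟫ ≠ 0) :
    ∃ Δ' : Finset V, Δ' ⊆ Insert.insert β Δ ∧ IsDual Δ' (MP_98010f_co.dl Δ') ∧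
      Submodule.span ℝ (Δ : Set V) ≤ Submodule.span ℝ (Δ' : Set V) ∧
      inc Δ' = ∑ j ∈ Δ, d j + ((1 - ∑ j ∈ Δ, ⟪d j, β⟫) / ⟪d i, β⟫) • d i := by
  set φ : V → V := fun j => if j = i then β else j with hφ
  have hinj : Set.InjOn φ Δ := by
    intro x hx y hy he
    simp only [hφ] at he
    by_cases h1 : x = i <;> by_cases h2 : y = i
    · rw [h1, h2]
    · rw [if_pos h1, if_neg h2] at he
      exact absurd (he ▸ h.ne hy hi h2) hb
    · rw [if_neg h1, if_pos h2] at he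
      exact absurd (he ▸ h.ne hx hi h1) hb
    · rwa [if_neg h1, if_neg h2] at he
  have hspan : Submodule.span ℝ (Δ : Set V) ≤ Submodule.span ℝ (Δ.image φ : Set V) := by
    have hoth : ∀ j ∈ Δ, j ≠ i → j ∈ Submodule.span ℝ (Δ.image φ : Set V) := fun j hj hne =>
      Submodule.subset_span (mem_coe.2 (mem_image.2 ⟨j, hj, if_neg hne⟩))
    have hβ' : β ∈ Submodule.span ℝ (Δ.image φ : Set V) :=
      Submodule.subset_span (mem_coe.2 (mem_image.2 ⟨i, hi, if_pos rfl⟩))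
    rw [Submodule.span_le]
    intro j hj
    by_cases hji : j = i
    · have e := h.expand hβ
      rw [← add_sum_erase _ _ hi] at e
      have e2 : i = ⟪d i, β⟫⁻¹ • (β - ∑ j ∈ Δ.erase i, ⟪d j, β⟫ • j) := by
        rw [← eq_sub_iff_add_eq.2 e.symm, smul_smul, inv_mul_cancel₀ hb, one_smul]
      rw [hji, e2]
      exact Submodule.smul_mem _ _ (Submodule.sub_mem _ hβ' (Submodule.sum_mem _ fun j hj =>
        Submodule.smul_mem _ _ (hoth j (mem_erase.1 hj).2 (mem_erase.1 hj).1)))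
    · exact hoth j hj hji
  have h1 : ∀ j ∈ Δ, d j + (((if j = i then 1 else 0) - ⟪d j, β⟫) / ⟪d i, β⟫) • d i ∈
      Submodule.span ℝ (Δ.image φ : Set V) := fun j hj =>
    hspan (Submodule.add_mem _ (h.mem j hj) (Submodule.smul_mem _ _ (h.mem i hi)))
  have h2 : ∀ x ∈ Δ, ∀ j ∈ Δ, ⟪d j + (((if j = i then 1 else 0) - ⟪d j, β⟫) / ⟪d i, β⟫) • d i, φ x⟫ =
      if x = j then 1 else 0 := by
    intro x hx j hj
    rw [inner_add_left, real_inner_smul_left]
    by_cases hxi : x = i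
    · simp only [hφ, if_pos hxi]
      rw [div_mul_cancel₀ _ hb, hxi, add_sub_cancel]
      exact if_congr eq_comm rfl rfl
    · simp only [hφ, if_neg hxi]
      rw [h.ne hx hi hxi, mul_zero, add_zero, h.dual x hx j hj]
  have hd := isDual_image hinj h1 h2
  refine ⟨Δ.image φ, ?_, hd, hspan, ?_⟩
  · intro y hy
    obtain ⟨j, hj, rfl⟩ := mem_image.1 hy
    simp only [hφ]
    split_ifs
    · exact mem_insert_self _ _
    · exact mem_insert_of_mem hj
  · unfold inc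
    rw [sum_image hinj, sum_congr rfl (dl_image hinj hd h1 h2), sum_add_distrib, ← sum_smul,
      ← sum_div, sum_sub_distrib, sum_ite_eq', if_pos hi]

theorem shannon {Φ : Finset V} (hΦ : RS Φ) : ∃ Δ ⊆ Φ, IsDual Δ (dl Δ) ∧
    ∀ β ∈ Φ, β ∈ Submodule.span ℝ (Δ : Set V) ∧
      ((∀ j ∈ Δ, 0 ≤ ⟪dl Δ j, β⟫) ∨ ∀ j ∈ Δ, ⟪dl Δ j, β⟫ ≤ 0) := by
  set 𝒟 := Φ.powerset.filter (fun Δ => IsDual Δ (dl Δ)) with h𝒟
  have hD : ∀ Δ, Δ ∈ 𝒟 ↔ Δ ⊆ Φ ∧ IsDual Δ (dl Δ) := fun Δ => by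
    rw [h𝒟, mem_filter, mem_powerset]
  obtain ⟨x, hx⟩ := exists_generic (𝒟.biUnion fun Δ => Δ.image (dl Δ)) (by
    intro y hy
    obtain ⟨Δ, hΔ, hy⟩ := mem_biUnion.1 hy
    obtain ⟨j, hj, rfl⟩ := mem_image.1 hy
    intro h0
    have := ((hD Δ).1 hΔ).2.self hj
    rw [h0, inner_zero_left] at this
    exact zero_ne_one this)
  obtain ⟨Δ0, hΔ0, hmax0⟩ := exists_max_image 𝒟 card
    ⟨∅, (hD ∅).2 ⟨empty_subset _, ⟨by simp, by simp⟩⟩⟩
  have hsp0 : ∀ β ∈ Φ, β ∈ Submodule.span ℝ (Δ0 : Set V) := by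
    intro β hβ
    by_contra hcon
    obtain ⟨g1, g2⟩ := (hD Δ0).1 hΔ0
    obtain ⟨d', hd'⟩ := g2.insert hcon
    have := hmax0 _ ((hD _).2 ⟨insert_subset hβ g1, hd'.dl⟩)
    rw [card_insert_of_notMem (fun hm => hcon (Submodule.subset_span hm))] at this
    omega
  obtain ⟨Δ, hΔ, hmax⟩ := exists_max_image
    (𝒟.filter fun Δ : Finset V => ∀ β ∈ Φ, β ∈ Submodule.span ℝ (Δ : Set V))
    (fun Δ : Finset V => ⟪inc Δ, x⟫)
    ⟨Δ0, mem_filter.2 ⟨hΔ0, hsp0⟩⟩
  obtain ⟨hΔ1, hsp⟩ := mem_filter.1 hΔ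
  obtain ⟨hsub, hd⟩ := (hD Δ).1 hΔ1
  have hpiv : ∀ β ∈ Φ, ∀ i ∈ Δ, ⟪dl Δ i, β⟫ ≠ 0 →
      (1 - ∑ j ∈ Δ, ⟪dl Δ j, β⟫) / ⟪dl Δ i, β⟫ * ⟪dl Δ i, x⟫ ≤ 0 := by
    intro β hβ i hi hb
    obtain ⟨Δ', g1, g2, g3, g4⟩ := hd.pivot (hsp β hβ) hi hb
    have := hmax Δ' (mem_filter.2 ⟨(hD _).2 ⟨g1.trans (insert_subset hβ hsub), g2⟩,
      fun γ hγ => g3 (hsp γ hγ)⟩)
    rw [g4, inner_add_left, real_inner_smul_left] at this
    unfold inc at this
    linarith
  have hpos : ∀ i ∈ Δ, 0 < ⟪dl Δ i, x⟫ := by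
    intro i hi
    have h1 := hpiv (-i) (hΦ.neg i (hsub hi)) i hi (by rw [inner_neg_right, hd.self hi]; norm_num)
    have h2 : ∑ j ∈ Δ, ⟪dl Δ j, -i⟫ = -1 := by
      rw [sum_eq_single i]
      · rw [inner_neg_right, hd.self hi]
      · intro j hj hne
        rw [inner_neg_right, hd.ne hi hj hne.symm, neg_zero]
      · intro hn; exact absurd hi hn
    rw [h2, inner_neg_right, hd.self hi] at h1
    have h3 := hx _ (mem_biUnion.2 ⟨Δ, hΔ1, mem_image_of_mem _ hi⟩)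
    exact lt_of_le_of_ne (by linarith) h3.symm
  have hkey : ∀ β ∈ Φ, ∑ j ∈ Δ, ⟪dl Δ j, β⟫ ≤ 0 → ∀ j ∈ Δ, ⟪dl Δ j, β⟫ ≤ 0 := by
    intro β hβ hs i hi
    by_contra hcon
    push Not at hcon
    have h1 := hpiv β hβ i hi hcon.ne'
    have h2 : 0 < (1 - ∑ j ∈ Δ, ⟪dl Δ j, β⟫) / ⟪dl Δ i, β⟫ * ⟪dl Δ i, x⟫ :=
      mul_pos (div_pos (by linarith) hcon) (hpos i hi)
    linarith
  refine ⟨Δ, hsub, hd, fun β hβ => ⟨hsp β hβ, ?_⟩⟩
  rcases le_total (∑ j ∈ Δ, ⟪dl Δ j, β⟫) 0 with h | h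
  · exact Or.inr (hkey β hβ h)
  · left
    intro j hj
    have := hkey (-β) (hΦ.neg β hβ) (by
      simp only [inner_neg_right, sum_neg_distrib]; linarith) j hj
    rw [inner_neg_right] at this
    linarith

/-- the closed cone of a tope -/
def cone (P : Finset V) : Set V := {y | ∀ β ∈ P, 0 ≤ ⟪β, y⟫}

/-- if the cone of a tope is cut out by an independent family of unit vectors, this family is a
simple system -/
lemma isBase_of_cone {Φ P Δ : Finset V} {d : V → V} (hΦ : RS Φ) (hP : P ⊆ Φ) (hd : IsDual Δ d)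
    (hu : ∀ j ∈ Δ, ⟪j, j⟫ = 1) (hc : cone P = cone Δ) : IsBase P Δ d := by
  have hc' : ∀ y, (∀ j ∈ Δ, 0 ≤ ⟪j, y⟫) → ∀ β ∈ P, 0 ≤ ⟪β, y⟫ := fun y hy =>
    show y ∈ cone P from hc ▸ hy
  have hnn : ∀ β ∈ P, ∀ j ∈ Δ, 0 ≤ ⟪d j, β⟫ := by
    intro β hβ j hj
    rw [real_inner_comm]
    apply hc' _ _ β hβ
    intro i hi
    rw [real_inner_comm, hd.dual i hi j hj]
    split_ifs <;> norm_num
  have hspan : ∀ β ∈ P, β ∈ Submodule.span ℝ (Δ : Set V) := by
    intro β hβ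
    set u := β - ∑ j ∈ Δ, ⟪β, j⟫ • d j with hu'
    have h1 : ∀ i ∈ Δ, ⟪i, u⟫ = 0 := by
      intro i hi
      rw [hu', inner_sub_right, inner_sum, sum_eq_single i]
      · rw [inner_smul_right, real_inner_comm (d i), hd.self hi, mul_one, real_inner_comm, sub_self]
      · intro j hj hne
        rw [inner_smul_right, real_inner_comm (d j), hd.ne hi hj hne.symm, mul_zero]
      · intro hn; exact absurd hi hn
    have hp : ∑ j ∈ Δ, ⟪β, j⟫ • d j ∈ Submodule.span ℝ (Δ : Set V) :=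
      Submodule.sum_mem _ fun j hj => Submodule.smul_mem _ _ (hd.mem j hj)
    have h2 : ⟪∑ j ∈ Δ, ⟪β, j⟫ • d j, u⟫ = 0 := by
      rw [hd.expand hp, sum_inner]
      exact sum_eq_zero fun j hj => by rw [real_inner_smul_left, h1 j hj, mul_zero]
    have h3 := hc' (-u) (fun j hj => by rw [inner_neg_right, h1 j hj, neg_zero]) β hβ
    have h4 : ⟪u, u⟫ = ⟪β, u⟫ := by
      conv_lhs => rw [hu']
      rw [inner_sub_left, ← hu', h2, sub_zero]
    rw [inner_neg_right] at h3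
    have h5 : u = 0 := inner_self_eq_zero.1 (le_antisymm (by linarith) real_inner_self_nonneg)
    rw [sub_eq_zero.1 h5]
    exact hp
  refine ⟨hd, ?_, hspan, hnn⟩
  intro a ha
  by_contra haP
  have hall : ∀ β ∈ P, 0 < ⟪β, ∑ i ∈ Δ.erase a, d i⟫ := by
    intro β hβ
    have h1 : ∀ i ∈ Δ.erase a, 0 ≤ ⟪β, d i⟫ := fun i hi => by
      rw [real_inner_comm]; exact hnn β hβ i (mem_erase.1 hi).2
    rw [inner_sum]
    refine lt_of_le_of_ne (sum_nonneg h1) fun h0 => ?_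
    have h2 := (sum_eq_zero_iff_of_nonneg h1).1 h0.symm
    have h3 := hd.expand (hspan β hβ)
    rw [← add_sum_erase _ _ ha, sum_eq_zero (fun i hi => by
      rw [real_inner_comm, h2 i hi, zero_smul]), add_zero] at h3
    have h4 := hΦ.unit β (hP hβ)
    have h5 := hnn β hβ a ha
    rw [h3, real_inner_smul_left, inner_smul_right, hu a ha] at h4
    have h6 : ⟪d a, β⟫ = 1 := by nlinarith
    rw [h6, one_smul] at h3
    exact haP (h3 ▸ hβ)
  obtain ⟨t, ht, hlex⟩ := exists_lex Φ (∑ i ∈ Δ.erase a, d i) (-d a)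
  have h7 : ∑ i ∈ Δ.erase a, d i + t • (-d a) ∈ cone Δ :=
    hc ▸ fun β hβ => (hlex β (hP hβ) (hall β hβ)).le
  have h8 := h7 a ha
  rw [inner_add_right, inner_sum, sum_eq_zero (fun i hi => by
    rw [real_inner_comm, hd.ne ha (mem_erase.1 hi).2 (mem_erase.1 hi).1.symm]), inner_smul_right,
    inner_neg_right, real_inner_comm, hd.self ha] at h8
  linarith

/-- from congruent cones to `Good` -/
theorem good_of_cones {Φ : Finset V} (hΦ : RS Φ)
    (h : ∀ P Q, IsTope Φ P → IsTope Φ Q → ∃ g : V ≃ₗᵢ[ℝ] V, g '' cone P = cone Q) : Good Φ := by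
  obtain ⟨Δ, hsub, hd, hall⟩ := shannon hΦ
  set P0 := Φ.filter (fun β => ∀ j ∈ Δ, 0 ≤ ⟪dl Δ j, β⟫) with hP0
  have hb0 : IsBase P0 Δ (dl Δ) := by
    refine ⟨hd, ?_, fun β hβ => (hall β (mem_filter.1 hβ).1).1, fun β hβ => (mem_filter.1 hβ).2⟩
    intro i hi
    refine mem_filter.2 ⟨hsub hi, fun j hj => ?_⟩
    rw [hd.dual i hi j hj]
    split_ifs <;> norm_num
  have hP0s : P0 ⊆ Φ := filter_subset _ _
  have hT0 : IsTope Φ P0 := by
    refine ⟨∑ i ∈ Δ \ ∅, dl Δ i, isTope_of_point hP0s ?_ ?_⟩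
    · intro β hβ
      rcases (hall β hβ).2 with h1 | h1
      · exact Or.inl (mem_filter.2 ⟨hβ, h1⟩)
      · right
        refine mem_filter.2 ⟨hΦ.neg β hβ, fun j hj => ?_⟩
        rw [inner_neg_right]
        linarith [h1 j hj]
    · intro β hβ
      by_contra h0
      have h1 := hb0.expand_sub hβ (empty_subset _) h0
      have h2 := hΦ.unit β (hP0s hβ)
      rw [h1] at h2
      simp at h2
  have hc0 : cone P0 = cone Δ := by
    ext y
    exact ⟨fun hy j hj => hy j (hb0.sub hj), fun hy β hβ => hb0.inner_nonneg hβ hy⟩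
  have main : ∀ Q, IsTope Φ Q → ∃ g : V ≃ₗᵢ[ℝ] V, IsBase Q (Δ.image g) (dl (Δ.image g)) := by
    intro Q hQ
    obtain ⟨g, hg⟩ := h P0 Q hT0 hQ
    refine ⟨g, isBase_of_cone hΦ hQ.sub (isDual_image (d' := fun j => g (dl Δ j))
      g.injective.injOn ?_ ?_) ?_ ?_⟩
    · intro j hj
      rw [coe_image]
      exact Submodule.apply_mem_span_image_of_mem_span (g.toLinearEquiv.toLinearMap) (hd.mem j hj)
    · intro i hi j hj
      rw [LinearIsometryEquiv.inner_map_map, hd.dual i hi j hj]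
    · intro j hj
      obtain ⟨i, hi, rfl⟩ := mem_image.1 hj
      rw [LinearIsometryEquiv.inner_map_map, hΦ.unit i (hsub hi)]
    · rw [← hg, hc0]
      ext y
      constructor
      · rintro ⟨z, hz, rfl⟩ j hj
        obtain ⟨i, hi, rfl⟩ := mem_image.1 hj
        rw [LinearIsometryEquiv.inner_map_map]
        exact hz i hi
      · intro hy
        refine ⟨g.symm y, fun i hi => ?_, g.apply_symm_apply y⟩
        rw [← g.inner_map_map, g.apply_symm_apply]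
        exact hy _ (mem_image_of_mem g hi)
  refine ⟨hΦ, fun Q hQ => ?_, fun P Q hP hQ => ?_⟩
  · obtain ⟨g, hg⟩ := main Q hQ
    exact ⟨_, hg.eq_sim hΦ hQ.sub ▸ hg⟩
  · obtain ⟨g, hg⟩ := main P hP
    obtain ⟨g', hg'⟩ := main Q hQ
    refine ⟨g.symm.trans g', ?_⟩
    rw [← hg.eq_sim hΦ hP.sub, ← hg'.eq_sim hΦ hQ.sub, image_image]
    apply image_congr
    intro x _
    simp

end Pool.Agent.MP_98010f_co
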