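import Mathlib.LinearAlgebra.FreeModule.PID
import Mathlib.RingTheory.Flat.TorsionFree
import Mathlib.Analysis.InnerProductSpace.Projection.FiniteDimensional
import Mathlib.Analysis.Normed.Affine.MazurUlam
import Mathlib.RingTheory.SimpleRing.Principal
import Pool.Agent.MP_98010f_co.Shannon

/-!
Chambers as closures of components, and the reflection group of a stable system.
-/

set_option linter.unusedSectionVars false

namespace Pool.Agent.MP_98010f_co

open Finset
open scoped RealInnerProductSpace Classical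

variable {V : Type*} [NormedAddCommGroup V] [InnerProductSpace ℝ V]

lemma component_eq {Φ : Finset V} (hΦ : RS Φ) {x : V} (hx : Reg Φ x) :
    connectedComponentIn {y | Reg Φ y} x = {y | ∀ β ∈ pos Φ x, 0 < ⟪β, y⟫} := by
  have hT : IsTope Φ (pos Φ x) := ⟨x, hx, rfl⟩
  apply Set.Subset.antisymm
  · intro y hy β hβ
    by_contra hcon
    push Not at hcon
    have hc : Continuous fun z : V => ⟪β, z⟫ := by fun_prop
    obtain ⟨z, hz, hz0⟩ := (isPreconnected_connectedComponentIn (x := x)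
      (F := {y | Reg Φ y})).intermediate_value hy (mem_connectedComponentIn hx) hc.continuousOn
      (show (0 : ℝ) ∈ Set.Icc ⟪β, y⟫ ⟪β, x⟫ from ⟨hcon, (mem_pos.1 hβ).2.le⟩)
    exact connectedComponentIn_subset _ _ hz β (mem_pos.1 hβ).1 hz0
  · apply IsPreconnected.subset_connectedComponentIn
    · apply Convex.isPreconnected
      intro y hy z hz a b ha hb hab β hβ
      rw [inner_add_right, inner_smul_right, inner_smul_right]
      have h1 := hy β hβ
      have h2 := hz β hβ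
      rcases ha.lt_or_eq with h | h
      · nlinarith [mul_pos h h1, mul_nonneg hb h2.le]
      · have : b = 1 := by linarith
        rw [← h, this]; linarith
    · exact fun β hβ => (mem_pos.1 hβ).2
    · intro y hy
      exact (isTope_of_point hT.sub (fun β hβ => hT.or_neg hΦ hβ) hy).1

lemma closure_eq {P : Finset V} {x : V} (hx : ∀ β ∈ P, 0 < ⟪β, x⟫) :
    closure {y | ∀ β ∈ P, 0 < ⟪β, y⟫} = cone P := by
  apply Set.Subset.antisymm
  · apply closure_minimal
    · exact fun y hy β hβ => (hy β hβ).le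
    · have : cone P = ⋂ β ∈ P, {y | 0 ≤ ⟪β, y⟫} := by ext y; simp [cone]
      rw [this]
      exact isClosed_biInter fun β _ => isClosed_le continuous_const (by fun_prop)
  · intro y hy
    have hc : Continuous fun t : ℝ => y + t • x := by fun_prop
    have ht : Filter.Tendsto (fun t : ℝ => y + t • x) (nhdsWithin 0 (Set.Ioi 0)) (nhds y) := by
      have := (hc.tendsto 0).mono_left (nhdsWithin_le_nhds (s := Set.Ioi 0))
      simpa using this
    refine mem_closure_of_tendsto ht (Filter.eventually_of_mem self_mem_nhdsWithin ?_)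
    intro t ht β hβ
    rw [inner_add_right, inner_smul_right]
    have := mul_pos (show 0 < t from ht) (hx β hβ)
    linarith [hy β hβ]

lemma linear_maps_cone {P Q : Finset V} (g : V ≃ₗᵢ[ℝ] V) (v : V)
    (h : ∀ y ∈ cone P, g y + v ∈ cone Q) : ∀ y ∈ cone P, g y ∈ cone Q := by
  intro y hy β hβ
  by_contra hcon
  push Not at hcon
  have h1 := h (((|⟪β, v⟫| + 1) / -⟪β, g y⟫) • y) (fun γ hγ => by
    rw [inner_smul_right]
    exact mul_nonneg (div_nonneg (by positivity) (by linarith)) (hy γ hγ)) β hβ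
  rw [map_smul, inner_add_right, inner_smul_right, div_neg, neg_mul,
    div_mul_cancel₀ _ hcon.ne] at h1
  linarith [le_abs_self ⟪β, v⟫]

lemma exists_linear {P Q : Finset V} (f : V ≃ᵢ V) (h : f '' cone P = cone Q) :
    ∃ g : V ≃ₗᵢ[ℝ] V, g '' cone P = cone Q := by
  refine ⟨f.toRealLinearIsometryEquiv, Set.Subset.antisymm ?_ ?_⟩
  · rintro _ ⟨y, hy, rfl⟩
    refine linear_maps_cone _ (f 0) (fun z hz => ?_) y hy
    rw [IsometryEquiv.toRealLinearIsometryEquiv_apply, sub_add_cancel, ← h]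
    exact ⟨z, hz, rfl⟩
  · intro y hy
    refine ⟨f.toRealLinearIsometryEquiv.symm y, ?_, by simp⟩
    refine linear_maps_cone _ (-f.toRealLinearIsometryEquiv.symm (f 0)) (fun z hz => ?_) y hy
    rw [← h] at hz
    obtain ⟨w, hw, rfl⟩ := hz
    rw [← sub_eq_add_neg, ← map_sub, ← IsometryEquiv.toRealLinearIsometryEquiv_apply,
      LinearIsometryEquiv.symm_apply_apply]
    exact hw

variable [FiniteDimensional ℝ V]

lemma reflection_eq_rf {a : V} (ha : ⟪a, a⟫ = 1) (x : V) : (ℝ ∙ a)ᗮ.reflection x = rf a x := by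
  rw [Submodule.reflection_orthogonal_apply, Submodule.reflection_singleton_apply]
  have : ‖a‖ ^ 2 = 1 := by rw [← real_inner_self_eq_norm_sq, ha]
  simp only [rf, RCLike.ofReal_real_eq_id, id_eq, this, div_one]
  module

lemma exists_normal {H : Submodule ℝ V} (hH : Module.finrank ℝ H + 1 = Module.finrank ℝ V) :
    ∃ u : V, ⟪u, u⟫ = 1 ∧ H = (ℝ ∙ u)ᗮ := by
  have h1 : Module.finrank ℝ Hᗮ = 1 := Submodule.finrank_add_finrank_orthogonal' hH
  obtain ⟨v, hv, hw⟩ := finrank_eq_one_iff'.1 h1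
  have hv0 : (v : V) ≠ 0 := fun e => hv (Subtype.ext e)
  have hn : ‖(v : V)‖ ≠ 0 := norm_ne_zero_iff.2 hv0
  refine ⟨‖(v : V)‖⁻¹ • (v : V), ?_, ?_⟩
  · rw [real_inner_smul_left, inner_smul_right, real_inner_self_eq_norm_sq]
    field_simp
  · rw [Submodule.span_singleton_smul_eq (IsUnit.mk0 _ (inv_ne_zero hn))]
    have : Hᗮ = ℝ ∙ (v : V) := by
      apply le_antisymm
      · intro w hw'
        obtain ⟨c, hc⟩ := hw ⟨w, hw'⟩
        exact Submodule.mem_span_singleton.2 ⟨c, congrArg Subtype.val hc⟩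
      · rw [Submodule.span_le, Set.singleton_subset_iff]
        exact v.2
    rw [← this, Submodule.orthogonal_orthogonal]

lemma normal_unique {u β : V} (hu : ⟪u, u⟫ = 1) (hβ : ⟪β, β⟫ = 1) (h : (ℝ ∙ β)ᗮ = (ℝ ∙ u)ᗮ) :
    β = u ∨ β = -u := by
  have h1 : (ℝ ∙ β) = (ℝ ∙ u) := by
    rw [← Submodule.orthogonal_orthogonal (ℝ ∙ β), h, Submodule.orthogonal_orthogonal]
  obtain ⟨c, hc⟩ := Submodule.mem_span_singleton.1 (h1 ▸ Submodule.mem_span_singleton_self β)
  rw [← hc, real_inner_smul_left, inner_smul_right, hu] at hβ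
  have : (c - 1) * (c + 1) = 0 := by linarith
  rcases mul_eq_zero.1 this with h2 | h2
  · left; rw [← hc, show c = 1 by linarith, one_smul]
  · right; rw [← hc, show c = -1 by linarith, neg_one_smul]

lemma rf_neg (a x : V) : rf a (-x) = -rf a x := by
  simp only [rf, inner_neg_right]; module

lemma prod_rf {Φ P : Finset V} (hΦ : RS Φ) (hP : IsTope Φ P) {a : V} (ha : a ∈ P)
    (hrf : ∀ β ∈ Φ, rf a β ∈ Φ) (x : V) : ∏ β ∈ P, ⟪β, rf a x⟫ = -∏ β ∈ P, ⟪β, x⟫ := by
  have hau := hΦ.unit a (hP.sub ha)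
  set s : V → V := fun β => if rf a β ∈ P then rf a β else -rf a β with hs
  set e : V → ℝ := fun β => if rf a β ∈ P then 1 else -1 with he
  have hsP : ∀ β ∈ P, s β ∈ P := by
    intro β hβ
    simp only [hs]
    split_ifs with h
    · exact h
    · exact (hP.or_neg hΦ (hrf β (hP.sub hβ))).resolve_left h
  have hss : ∀ β ∈ P, s (s β) = β ∧ e (s β) = e β := by
    intro β hβ
    by_cases h : rf a β ∈ P
    · simp only [hs, he, if_pos h, rf_rf hau, if_pos hβ, and_self]
    · simp only [hs, he, if_neg h, rf_neg, rf_rf hau, if_neg (hP.not_neg hβ), neg_neg, and_self]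
  have haa : rf a a = -a := by simp only [rf, hau]; module
  have h1 : ∀ β ∈ P, ⟪β, rf a x⟫ = e β * ⟪s β, x⟫ := by
    intro β _
    rw [← inner_rf hau, rf_rf hau]
    simp only [hs, he]
    split_ifs
    · rw [one_mul]
    · rw [inner_neg_left]; ring
  have h2 : ∏ β ∈ P, ⟪s β, x⟫ = ∏ β ∈ P, ⟪β, x⟫ :=
    prod_nbij' s s hsP hsP (fun β hβ => (hss β hβ).1) (fun β hβ => (hss β hβ).1) (fun _ _ => rfl)
  have hsa : s a = a := by simp only [hs, haa, if_neg (hP.not_neg ha), neg_neg]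
  have h3 : ∏ β ∈ P.erase a, e β = 1 := by
    refine prod_involution (fun β _ => s β) ?_ ?_ ?_ ?_
    · intro β hβ
      rw [(hss β (mem_erase.1 hβ).2).2]
      simp only [he]
      split_ifs <;> norm_num
    · intro β hβ hne hfix
      by_cases h : rf a β ∈ P
      · exact hne (by simp only [he, if_pos h])
      · simp only [hs, if_neg h] at hfix
        unfold rf at hfix
        have h4 : β = ⟪a, β⟫ • a := by
          have : (2 : ℝ) • (β - ⟪a, β⟫ • a) = 0 := by
            rw [← sub_eq_zero] at hfix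
            rw [← neg_eq_zero, ← hfix]; module
          exact sub_eq_zero.1 ((smul_eq_zero.1 this).resolve_left two_ne_zero)
        have h5 := IsBase.c_lt hΦ hP ha (mem_erase.1 hβ).2 (mem_erase.1 hβ).1
        have h6 := hΦ.unit β (hP.sub (mem_erase.1 hβ).2)
        rw [h4, real_inner_smul_left, inner_smul_right, hau] at h6
        nlinarith
    · intro β hβ
      refine mem_erase.2 ⟨fun h => (mem_erase.1 hβ).1 ?_, hsP β (mem_erase.1 hβ).2⟩
      rw [← (hss β (mem_erase.1 hβ).2).1, h, hsa]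
    · intro β hβ
      exact (hss β (mem_erase.1 hβ).2).1
  rw [prod_congr rfl h1, prod_mul_distrib, h2, ← mul_prod_erase _ _ ha, h3]
  simp only [he, haa, if_neg (hP.not_neg ha)]
  ring

lemma det_refl {a : V} (ha : ⟪a, a⟫ = 1) :
    LinearMap.det ((ℝ ∙ a)ᗮ.reflection.toLinearEquiv : V →ₗ[ℝ] V) = -1 := by
  have h0 : a ≠ 0 := by rintro rfl; simp at ha
  have := Submodule.det_reflection (K := (ℝ ∙ a)ᗮ)
  rw [Submodule.orthogonal_orthogonal, finrank_span_singleton h0, pow_one] at this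
  exact this

theorem group_facts {Φ P : Finset V} (hΦ : RS Φ) (hP : IsTope Φ P)
    (hrf : ∀ a ∈ Φ, ∀ β ∈ Φ, rf a β ∈ Φ) (S : Set (V ≃ₗᵢ[ℝ] V))
    (hS : ∀ s ∈ S, ∃ a ∈ Φ, s = (ℝ ∙ a)ᗮ.reflection) :
    Finite (Subgroup.closure S) ∧
      ∀ γ : V, ⟪γ, γ⟫ = 1 → (ℝ ∙ γ)ᗮ.reflection ∈ Subgroup.closure S → γ ∈ Φ := by
  have hgen : ∀ a ∈ Φ, (∀ β ∈ Φ, (ℝ ∙ a)ᗮ.reflection β ∈ Φ) ∧
      (∀ q ∈ (Submodule.span ℝ (Φ : Set V))ᗮ, (ℝ ∙ a)ᗮ.reflection q = q) ∧
      ∀ x, ∏ β ∈ P, ⟪β, (ℝ ∙ a)ᗮ.reflection x⟫ =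
        LinearMap.det ((ℝ ∙ a)ᗮ.reflection.toLinearEquiv : V →ₗ[ℝ] V) * ∏ β ∈ P, ⟪β, x⟫ := by
    intro a ha
    have hau := hΦ.unit a ha
    refine ⟨fun β hβ => reflection_eq_rf hau β ▸ hrf a ha β hβ, fun q hq => ?_, fun x => ?_⟩
    · rw [reflection_eq_rf hau, rf, (Submodule.mem_orthogonal _ _).1 hq a (Submodule.subset_span ha)]
      simp
    · rw [det_refl hau, reflection_eq_rf hau, neg_one_mul]
      rcases hP.or_neg hΦ ha with h | h
      · exact prod_rf hΦ hP h (hrf a ha) x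
      · have e : rf a x = rf (-a) x := by simp only [rf, inner_neg_left]; module
        rw [e]
        exact prod_rf hΦ hP h (hrf _ (hΦ.neg a ha)) x
  have hall : ∀ w ∈ Subgroup.closure S, (∀ β ∈ Φ, w β ∈ Φ) ∧
      (∀ q ∈ (Submodule.span ℝ (Φ : Set V))ᗮ, w q = q) ∧
      ∀ x, ∏ β ∈ P, ⟪β, w x⟫ = LinearMap.det (w.toLinearEquiv : V →ₗ[ℝ] V) * ∏ β ∈ P, ⟪β, x⟫ := by
    intro w hw
    induction hw using Subgroup.closure_induction'' with
    | mem s hs =>
      obtain ⟨a, ha, rfl⟩ := hS s hs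
      exact hgen a ha
    | inv_mem s hs =>
      obtain ⟨a, ha, rfl⟩ := hS s hs
      rw [Submodule.reflection_inv]
      exact hgen a ha
    | one =>
      refine ⟨fun β hβ => hβ, fun q _ => rfl, fun x => ?_⟩
      have : ((1 : V ≃ₗᵢ[ℝ] V).toLinearEquiv : V →ₗ[ℝ] V) = LinearMap.id := rfl
      rw [this, LinearMap.det_id, one_mul]; rfl
    | mul w w' _ _ h h' =>
      refine ⟨fun β hβ => h.1 _ (h'.1 β hβ), fun q hq => ?_, fun x => ?_⟩
      · show w (w' q) = q
        rw [h'.2.1 q hq, h.2.1 q hq]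
      · have : ((w * w').toLinearEquiv : V →ₗ[ℝ] V) =
            (w.toLinearEquiv : V →ₗ[ℝ] V) ∘ₗ (w'.toLinearEquiv : V →ₗ[ℝ] V) := rfl
        rw [this, LinearMap.det_comp, mul_assoc, ← h'.2.2 x, ← h.2.2 (w' x)]
        rfl
  refine ⟨?_, ?_⟩
  · apply Finite.of_injective (fun (w : Subgroup.closure S) (β : Φ) =>
      (⟨w.1 β, (hall w.1 w.2).1 β β.2⟩ : Φ))
    intro w w' he
    ext x
    obtain ⟨p, hp, q, hq, rfl⟩ := (Submodule.span ℝ (Φ : Set V)).exists_add_mem_mem_orthogonal x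
    rw [map_add, map_add, (hall w.1 w.2).2.1 q hq, (hall w'.1 w'.2).2.1 q hq]
    congr 1
    induction hp using Submodule.span_induction with
    | mem β hβ => exact congrArg Subtype.val (congrFun he ⟨β, hβ⟩)
    | zero => simp
    | add x y _ _ hx hy => rw [map_add, map_add, hx, hy]
    | smul c x _ hx => rw [map_smul, map_smul, hx]
  · intro γ hγ hw
    by_contra hcon
    obtain ⟨y, hy⟩ := exists_generic (P.image fun β => β - ⟪γ, β⟫ • γ) (by
      intro z hz h0
      obtain ⟨β, hβ, rfl⟩ := mem_image.1 hz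
      have h1 := sub_eq_zero.1 h0
      have h2 := hΦ.unit β (hP.sub hβ)
      rw [h1, real_inner_smul_left, inner_smul_right, hγ] at h2
      have h3 : (⟪γ, β⟫ - 1) * (⟪γ, β⟫ + 1) = 0 := by linarith
      rcases mul_eq_zero.1 h3 with h4 | h4
      · rw [show ⟪γ, β⟫ = 1 by linarith, one_smul] at h1
        exact hcon (h1 ▸ hP.sub hβ)
      · rw [show ⟪γ, β⟫ = -1 by linarith, neg_one_smul] at h1
        exact hcon (by simpa [h1] using hΦ.neg β (hP.sub hβ)))
    have h1 := (hall _ hw).2.2 (y - ⟪γ, y⟫ • γ)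
    rw [det_refl hγ, Submodule.reflection_mem_subspace_eq_self (by
      rw [Submodule.mem_orthogonal_singleton_iff_inner_right, inner_sub_right, inner_smul_right,
        hγ, mul_one, sub_self])] at h1
    have h2 : ∏ β ∈ P, ⟪β, y - ⟪γ, y⟫ • γ⟫ = 0 := by linarith
    obtain ⟨β, hβ, h3⟩ := prod_eq_zero_iff.1 h2
    apply hy _ (mem_image_of_mem _ hβ)
    rw [inner_sub_left, real_inner_smul_left, ← h3, inner_sub_right, inner_smul_right,
      real_inner_comm γ β]
    ring

end Pool.Agent.MP_98010f_co
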