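import Mathlib.LinearAlgebra.Matrix.Determinant.Basic
import Mathlib.Analysis.SpecialFunctions.Log.Basic
import Mathlib.Analysis.InnerProductSpace.LinearMap
import Pool.Agent.MP_98010f_co.Flip

/-!
If all simple systems are congruent, the two angles on both sides of a wall have equal sines.
-/

set_option linter.unusedSectionVars false

namespace Pool.Agent.MP_98010f_co

open Finset
open scoped RealInnerProductSpace Classical

variable {V : Type*} [NormedAddCommGroup V] [InnerProductSpace ℝ V]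

/-- every tope is simplicial and all simple systems are congruent -/
structure Good (Φ : Finset V) : Prop extends RS Φ where
  base : ∀ P, IsTope Φ P → ∃ d, IsBase P (sim P) d
  cong : ∀ P Q, IsTope Φ P → IsTope Φ Q → ∃ g : V ≃ₗᵢ[ℝ] V, (sim P).image g = sim Q

/-- Gram determinant -/
noncomputable def gdet (Δ : Finset V) : ℝ :=
  (Matrix.of fun i j : Δ => ⟪(i : V), (j : V)⟫).det

lemma gdet_image (Δ : Finset V) (φ : V → V) (hφ : Set.InjOn φ Δ) :
    gdet (Δ.image φ) = (Matrix.of fun i j : Δ => ⟪φ i, φ j⟫).det := by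
  let e : Δ ≃ Δ.image φ := Equiv.ofBijective (fun i => ⟨φ i, mem_image_of_mem φ i.2⟩)
    ⟨fun i j h => Subtype.ext (hφ i.2 j.2 (congrArg Subtype.val h)), fun y => by
      obtain ⟨x, hx, he⟩ := mem_image.1 y.2
      exact ⟨⟨x, hx⟩, Subtype.ext he⟩⟩
  rw [gdet, ← Matrix.det_submatrix_equiv_self e]
  rfl

lemma IsDual.gdet_ne {Δ : Finset V} {d : V → V} (h : IsDual Δ d) : gdet Δ ≠ 0 := by
  have : (Matrix.of fun i j : Δ => ⟪(i : V), (j : V)⟫) * (Matrix.of fun i j : Δ => ⟪d i, d j⟫) = 1 := by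
    ext i j
    rw [Matrix.mul_apply, Matrix.one_apply]
    simp only [Matrix.of_apply]
    have h1 := h.expand' (Submodule.subset_span (s := (Δ : Set V)) i.2)
    have h2 : ⟪(i : V), d j⟫ = ∑ m ∈ Δ, ⟪(i : V), m⟫ * ⟪d m, d j⟫ := by
      conv_lhs => rw [h1]
      rw [sum_inner]
      exact sum_congr rfl fun m _ => real_inner_smul_left _ _ _
    rw [sum_coe_sort Δ (fun m => ⟪(i : V), m⟫ * ⟪d m, d j⟫), ← h2, real_inner_comm,
      h.dual i i.2 j j.2]
    simp only [Subtype.ext_iff]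
  intro h0
  have h3 := congrArg Matrix.det this
  rw [Matrix.det_mul, Matrix.det_one] at h3
  rw [gdet] at h0
  rw [h0, zero_mul] at h3
  exact zero_ne_one h3

lemma det_shear (Δ : Finset V) {a : V} (ha : a ∈ Δ) (l k : V → ℝ) (hl : l a = -1) (hk : k a = 0)
    (u : Δ → V) : (Matrix.of fun i j : Δ => ⟪l i • (i : V) + k i • a, u j⟫).det =
      (∏ i ∈ Δ, l i) * (Matrix.of fun i j : Δ => ⟪(i : V), u j⟫).det := by
  rw [← prod_coe_sort Δ l, ← Matrix.det_mul_column]
  apply Matrix.det_eq_of_forall_row_eq_smul_add_const (fun i : Δ => -k i) ⟨a, ha⟩ (by simp [hk])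
  intro i j
  simp only [Matrix.of_apply, inner_add_left, real_inner_smul_left, hl]
  ring

lemma gdet_shear (Δ : Finset V) {a : V} (ha : a ∈ Δ) (l k : V → ℝ) (hl : l a = -1) (hk : k a = 0) :
    (Matrix.of fun i j : Δ => ⟪l i • (i : V) + k i • a, l j • (j : V) + k j • a⟫).det =
      (∏ i ∈ Δ, l i) ^ 2 * gdet Δ := by
  rw [det_shear Δ ha l k hl hk, ← Matrix.det_transpose]
  have : (Matrix.of fun i j : Δ => ⟪(i : V), l j • (j : V) + k j • a⟫).transpose =
      Matrix.of fun i j : Δ => ⟪l i • (i : V) + k i • a, (j : V)⟫ := by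
    ext i j
    simp only [Matrix.transpose_apply, Matrix.of_apply]
    exact real_inner_comm _ _
  rw [this, det_shear Δ ha l k hl hk, gdet]
  ring

variable {Φ P : Finset V} {a : V}

lemma Good.card_eq (hG : Good Φ) {P Q : Finset V} (hP : IsTope Φ P) (hQ : IsTope Φ Q) :
    (sim P).card = (sim Q).card := by
  obtain ⟨g, hg⟩ := hG.cong P Q hP hQ
  rw [← hg, card_image_of_injective _ g.injective]

lemma Good.gdet_eq (hG : Good Φ) {P Q : Finset V} (hP : IsTope Φ P) (hQ : IsTope Φ Q) :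
    gdet (sim P) = gdet (sim Q) := by
  obtain ⟨g, hg⟩ := hG.cong P Q hP hQ
  rw [← hg, gdet_image _ _ g.injective.injOn, gdet]
  simp only [LinearIsometryEquiv.inner_map_map]

lemma Good.flip_struct (hG : Good Φ) (hP : IsTope Φ P) (ha : a ∈ sim P) :
    ∃ l k : V → ℝ, l a = -1 ∧ k a = 0 ∧ (∀ j ∈ sim P, j ≠ a → 0 < l j ∧ 0 ≤ k j ∧
      l j • j + k j • a ∈ Y Φ a j ∧ ∀ γ ∈ Y Φ a j, ⟪a, γ⟫ ≤ ⟪a, l j • j + k j • a⟫) ∧
      Set.InjOn (fun j => l j • j + k j • a) (sim P) ∧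
      sim (flp P a) = (sim P).image (fun j => l j • j + k j • a) := by
  obtain ⟨d, hb⟩ := hG.base P hP
  have h := fun j (hj : j ∈ sim P) (hja : j ≠ a) => hb.exists_next hG.toRS hP ha hj hja
  choose! l k h1 h2 h3 h4 h5 using h
  have hinj : Set.InjOn (fun j => (if j = a then -1 else l j) • j + (if j = a then 0 else k j) • a)
      (sim P) := by
    intro i hi j hj he
    by_contra hne
    simp only at he
    by_cases hia : i = a
    · have hja : j ≠ a := fun e => hne (hia.trans e.symm)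
      have c1 := (hb.coef ha hj hja (l j) (k j)).1
      rw [if_neg hja, if_neg hja, if_pos hia, if_pos hia, hia] at he
      rw [← he, inner_add_right, inner_smul_right, inner_smul_right,
        hb.toIsDual.ne ha hj hja.symm] at c1
      have := h1 j hj hja
      linarith
    · have c1 := (hb.coef ha hi hia (l i) (k i)).1
      rw [if_neg hia, if_neg hia] at he
      rw [he, inner_add_right, inner_smul_right, inner_smul_right,
        hb.toIsDual.ne ha hi (Ne.symm hia), hb.toIsDual.ne hj hi (Ne.symm hne)] at c1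
      have := h1 i hi hia
      linarith
  refine ⟨fun j => if j = a then -1 else l j, fun j => if j = a then 0 else k j, by simp, by simp,
    ?_, hinj, ?_⟩
  · intro j hj hja
    simp only [if_neg hja]
    exact ⟨h1 j hj hja, h2 j hj hja, h3 j hj hja, h4 j hj hja⟩
  · symm
    apply eq_of_subset_of_card_le
    · intro β hβ
      obtain ⟨j, hj, rfl⟩ := mem_image.1 hβ
      rw [mem_sim]
      by_cases hja : j = a
      · simp only [if_pos hja]
        rw [hja, zero_smul, add_zero, neg_one_smul]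
        exact (mem_sim.1 ha).flp
      · simp only [if_neg hja]
        exact h5 j hj hja
    · rw [card_image_of_injOn hinj, hG.card_eq hP (hP.flp hG.toRS (mem_sim.1 ha))]

/-- the weight of a half plane -/
noncomputable def wt (Φ : Finset V) (a β : V) : ℝ :=
  Real.log (1 - sInf ((fun γ => ⟪a, γ⟫) '' (Y Φ a β : Set V)) ^ 2) -
    Real.log (1 - sSup ((fun γ => ⟪a, γ⟫) '' (Y Φ a β : Set V)) ^ 2)

lemma wt_eq {β γ : V} (h : γ ∈ Y Φ a β) : wt Φ a γ = wt Φ a β := by
  unfold wt; rw [Y_eq h]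

lemma wt_neg (hΦ : RS Φ) (β : V) : wt Φ a (-β) = -wt Φ a β := by
  have : (fun γ => ⟪a, γ⟫) '' (Y Φ a (-β) : Set V) = -((fun γ => ⟪a, γ⟫) '' (Y Φ a β : Set V)) := by
    ext c
    simp only [Set.mem_image, mem_coe, Set.mem_neg, mem_Y_neg hΦ]
    constructor
    · rintro ⟨γ, h, rfl⟩
      exact ⟨-γ, h, inner_neg_right _ _⟩
    · rintro ⟨γ, h, he⟩
      exact ⟨-γ, by rwa [neg_neg], by rw [inner_neg_right, he, neg_neg]⟩
  unfold wt
  rw [this, Real.sInf_neg, Real.sSup_neg, neg_sq, neg_sq]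
  ring

lemma wt_simple (hΦ : RS Φ) (hP : IsTope Φ P) {Δ : Finset V} {d : V → V} (hb : IsBase P Δ d)
    (ha : a ∈ Δ) {j : V} (hj : j ∈ Δ) (hja : j ≠ a) {l k : ℝ} (hl : 0 < l)
    (h1 : l • j + k • a ∈ Y Φ a j) (h2 : ∀ γ ∈ Y Φ a j, ⟪a, γ⟫ ≤ ⟪a, l • j + k • a⟫) :
    wt Φ a j = -(2 * Real.log l) := by
  have hau := hΦ.unit a (hP.sub (hb.sub ha))
  have hju := hΦ.unit j (hP.sub (hb.sub hj))
  have hc := IsBase.c_lt hΦ hP (hb.sub ha) (hb.sub hj) hja
  have e1 : sInf ((fun γ => ⟪a, γ⟫) '' (Y Φ a j : Set V)) = ⟪a, j⟫ := by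
    apply IsLeast.csInf_eq
    refine ⟨⟨j, mem_Y_self (hP.sub (hb.sub hj)), rfl⟩, ?_⟩
    rintro _ ⟨γ, hγ, rfl⟩
    obtain ⟨hγP, -, l', k', hl', hk', rfl⟩ := hb.Y_sub hΦ hP ha hj hja hγ
    exact (mono_c hau hju hc hl' hk' (hΦ.unit _ (hP.sub hγP))).1
  have e2 : sSup ((fun γ => ⟪a, γ⟫) '' (Y Φ a j : Set V)) = ⟪a, l • j + k • a⟫ := by
    apply IsGreatest.csSup_eq
    refine ⟨⟨_, h1, rfl⟩, ?_⟩
    rintro _ ⟨γ, hγ, rfl⟩
    exact h2 γ hγ
  unfold wt
  rw [e1, e2, norm_comb hau hju (hΦ.unit _ (mem_Y.1 h1).1),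
    Real.log_mul (by positivity) (by linarith), Real.log_pow]
  push_cast
  ring

lemma Good.sum_wt (hG : Good Φ) (hP : IsTope Φ P) (ha : a ∈ sim P) :
    ∑ j ∈ (sim P).erase a, wt Φ a j = 0 := by
  obtain ⟨d, hb⟩ := hG.base P hP
  obtain ⟨l, k, hl, hk, h1, h2, h3⟩ := hG.flip_struct hP ha
  have h4 := hG.gdet_eq (hP.flp hG.toRS (mem_sim.1 ha)) hP
  rw [h3, gdet_image _ _ h2, gdet_shear _ ha l k hl hk, ← mul_prod_erase _ _ ha, hl] at h4
  have h5 : (∏ i ∈ (sim P).erase a, l i) ^ 2 = 1 := by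
    have := mul_right_cancel₀ hb.toIsDual.gdet_ne (h4.trans (one_mul _).symm)
    linarith
  have h6 := congrArg Real.log h5
  rw [Real.log_pow, Real.log_prod (fun j hj =>
    (h1 j (mem_erase.1 hj).2 (mem_erase.1 hj).1).1.ne'), Real.log_one] at h6
  rw [sum_congr rfl (g := fun j => -(2 * Real.log (l j)))]
  · rw [sum_neg_distrib, ← mul_sum]
    push_cast at h6
    linarith
  · intro j hj
    obtain ⟨hja, hj⟩ := mem_erase.1 hj
    obtain ⟨g1, -, g3, g4⟩ := h1 j hj hja
    exact wt_simple hG.toRS hP hb ha hj hja g1 g3 g4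

/-- the potential -/
noncomputable def pot (Φ : Finset V) (a : V) (P : Finset V) : ℝ := ∑ β ∈ P, wt Φ a β

lemma pot_xflp (hΦ : RS Φ) (hP : IsTope Φ P) {Δ : Finset V} {d : V → V} (hb : IsBase P Δ d)
    (ha : a ∈ Δ) {j : V} (hj : j ∈ Δ) (hja : j ≠ a) :
    pot Φ a (xflp Φ P a j) = pot Φ a P - 2 * ((Y Φ a j).card * wt Φ a j) := by
  have hsub : Y Φ a j ⊆ P := fun γ hγ => (hb.Y_sub hΦ hP ha hj hja hγ).1
  have hY : ∑ γ ∈ Y Φ a j, wt Φ a γ = (Y Φ a j).card * wt Φ a j := by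
    rw [sum_congr rfl (fun γ hγ => wt_eq hγ), sum_const, nsmul_eq_mul]
  unfold pot xflp
  rw [sum_union, sum_image (fun x _ y _ h => neg_injective h), ← sum_sdiff hsub,
    sum_congr rfl (fun γ _ => wt_neg hΦ γ), sum_neg_distrib, hY]
  · ring
  · rw [disjoint_left]
    intro β h1 h2
    obtain ⟨γ, hγ, rfl⟩ := mem_image.1 h2
    exact hP.not_neg (hsub hγ) (mem_sdiff.1 h1).1

lemma Good.exists_sep (hG : Good Φ) {P Q : Finset V} (hP : IsTope Φ P) (hQ : IsTope Φ Q)
    (hne : ¬ P ⊆ Q) : ∃ j ∈ sim P, j ∉ Q := by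
  by_contra hcon
  push Not at hcon
  obtain ⟨d, hb⟩ := hG.base P hP
  obtain ⟨x, hx, rfl⟩ := hQ
  apply hne
  intro β hβ
  have h1 := hb.inner_nonneg hβ (w := x) (fun j hj => (mem_pos.1 (hcon j hj)).2.le)
  exact mem_pos.2 ⟨hP.sub hβ, lt_of_le_of_ne h1 (hx β (hP.sub hβ)).symm⟩

lemma IsTope.eq_of_subset (hΦ : RS Φ) {P Q : Finset V} (hP : IsTope Φ P) (hQ : IsTope Φ Q)
    (h : P ⊆ Q) : P = Q := by
  refine Subset.antisymm h fun β hβ => ?_
  rcases hP.or_neg hΦ (hQ.sub hβ) with h1 | h1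
  · exact h1
  · exact absurd (h h1) (hQ.not_neg hβ)

lemma Good.wt_zero_of_max (hG : Good Φ) (hP : IsTope Φ P) (ha : a ∈ sim P)
    (hmax : ∀ Q, IsTope Φ Q → a ∈ sim Q → pot Φ a Q ≤ pot Φ a P) :
    ∀ j ∈ sim P, j ≠ a → wt Φ a j = 0 := by
  obtain ⟨d, hb⟩ := hG.base P hP
  have h1 : ∀ j ∈ (sim P).erase a, 0 ≤ wt Φ a j := by
    intro j hj
    obtain ⟨hja, hj⟩ := mem_erase.1 hj
    obtain ⟨s1, s2⟩ := hb.xflp_simple hG.toRS hP ha hj hja
    have h2 := hmax _ s2 (mem_sim.2 s1)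
    rw [pot_xflp hG.toRS hP hb ha hj hja] at h2
    have h3 : (0 : ℝ) < (Y Φ a j).card := by
      exact_mod_cast card_pos.2 ⟨j, mem_Y_self (hP.sub (hb.sub hj))⟩
    by_contra h4
    push Not at h4
    nlinarith
  have h2 := (sum_eq_zero_iff_of_nonneg h1).1 (hG.sum_wt hP ha)
  exact fun j hj hja => h2 j (mem_erase.2 ⟨hja, hj⟩)

theorem Good.wt_zero (hG : Good Φ) (hP : IsTope Φ P) (ha : a ∈ sim P) :
    ∀ j ∈ sim P, j ≠ a → wt Φ a j = 0 := by
  obtain ⟨P0, hP0, hmax⟩ := exists_max_image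
    (Φ.powerset.filter (fun Q => IsTope Φ Q ∧ a ∈ sim Q)) (pot Φ a)
    ⟨P, mem_filter.2 ⟨mem_powerset.2 hP.sub, hP, ha⟩⟩
  have hmax' : ∀ Q, IsTope Φ Q → a ∈ sim Q → pot Φ a Q ≤ pot Φ a P0 := fun Q h1 h2 =>
    hmax Q (mem_filter.2 ⟨mem_powerset.2 h1.sub, h1, h2⟩)
  have key : ∀ n, ∀ Q, IsTope Φ Q → a ∈ sim Q → pot Φ a Q = pot Φ a P0 → (Q \ P).card = n →
      pot Φ a P = pot Φ a P0 := by
    intro n
    induction n using Nat.strong_induction_on with
    | _ n ih =>
      intro Q hQ haQ hpot hn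
      by_cases hsub : Q ⊆ P
      · rw [← hQ.eq_of_subset hG.toRS hP hsub, hpot]
      · obtain ⟨j, hj, hjP⟩ := hG.exists_sep hQ hP hsub
        have hja : j ≠ a := fun e => hjP (e ▸ (mem_sim.1 ha).1)
        obtain ⟨d, hb⟩ := hG.base Q hQ
        obtain ⟨s1, s2⟩ := hb.xflp_simple hG.toRS hQ haQ hj hja
        have hw := hG.wt_zero_of_max hQ haQ (fun Q' h1 h2 => hpot ▸ hmax' Q' h1 h2) j hj hja
        refine ih _ ?_ _ s2 (mem_sim.2 s1) ?_ rfl
        · rw [← hn]
          apply card_lt_card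
          have hjY := mem_Y_self (a := a) (hQ.sub (hb.sub hj))
          have hYP : ∀ γ ∈ Y Φ a j, -γ ∈ P := by
            intro γ hγ
            obtain ⟨-, w, hw1, hw2⟩ := mem_sim.1 ha
            obtain ⟨hγΦ, l, k, hl, he⟩ := mem_Y.1 hγ
            have hnj : -j ∈ P := (hP.or_neg hG.toRS (hQ.sub (hb.sub hj))).resolve_left hjP
            have hnja : -j ≠ a := fun e => hQ.not_neg (hb.sub hj) (e ▸ (mem_sim.1 haQ).1)
            have h5 := hw2 _ hnj hnja
            refine (hP.or_neg hG.toRS hγΦ).resolve_left fun hγP => ?_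
            have h6 := hw2 γ hγP (hb.Y_sub hG.toRS hQ haQ hj hja hγ).2.1
            rw [he, inner_add_left, real_inner_smul_left, real_inner_smul_left, hw1] at h6
            rw [inner_neg_left] at h5
            nlinarith
          refine ⟨fun β hβ => ?_, fun hcon => ?_⟩
          · obtain ⟨g1, g2⟩ := mem_sdiff.1 hβ
            rcases mem_xflp.1 g1 with g3 | g3
            · exact mem_sdiff.2 ⟨g3.1, g2⟩
            · exact absurd (by simpa using hYP _ g3) g2
          · have g1 := (mem_sdiff.1 (hcon (mem_sdiff.2 ⟨hb.sub hj, hjP⟩))).1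
            rcases mem_xflp.1 g1 with g3 | g3
            · exact g3.2 hjY
            · exact hQ.not_neg (hb.sub hj) (hb.Y_sub hG.toRS hQ haQ hj hja g3).1
        · rw [pot_xflp hG.toRS hQ hb haQ hj hja, hw, hpot]; ring
  have hP0' := (mem_filter.1 hP0).2
  have := key _ P0 hP0'.1 hP0'.2 rfl rfl
  exact hG.wt_zero_of_max hP ha (fun Q h1 h2 => this ▸ hmax' Q h1 h2)

/-- only the four vectors `± a, ± j` of `Φ` lie in the plane of `a` and `j` -/
def Rk (Φ : Finset V) (a j : V) : Prop := ∀ l k : ℝ, l • j + k • a ∈ Φ → l = 0 ∨ k = 0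

/-- after crossing the wall `a`, each other wall `j` stays or is reflected -/
theorem Good.flip_struct' (hG : Good Φ) (hP : IsTope Φ P) (ha : a ∈ sim P) :
    sim (flp P a) =
      (sim P).image (fun j => if j ≠ a ∧ Rk Φ a j then j else j - (2 * ⟪a, j⟫) • a) := by
  obtain ⟨d, hb⟩ := hG.base P hP
  obtain ⟨l, k, hl, hk, h1, -, h3⟩ := hG.flip_struct hP ha
  have hau := hG.unit a (hP.sub (hb.sub ha))
  rw [h3]
  apply image_congr
  intro j hj
  simp only
  by_cases hja : j = a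
  · rw [if_neg (by simp [hja]), hja, hl, hk, hau]; module
  · obtain ⟨g1, g2, g3, g4⟩ := h1 j hj hja
    have hju := hG.unit j (hP.sub (hb.sub hj))
    have hc := IsBase.c_lt hG.toRS hP (hb.sub ha) (hb.sub hj) hja
    have h4 := wt_simple hG.toRS hP hb ha hj hja g1 g3 g4
    rw [hG.wt_zero hP ha j hj hja] at h4
    have h5 : l j = 1 := Real.eq_one_of_pos_of_log_eq_zero g1 (by linarith)
    have h6 := norm_comb hau hju (hG.unit _ (mem_Y.1 g3).1)
    rw [inner_comb hau, h5] at h6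
    rw [h5] at g3 g4 ⊢
    by_cases hR : Rk Φ a j
    · rw [if_pos ⟨hja, hR⟩, (hR _ _ (mem_Y.1 g3).1).resolve_left one_ne_zero]; simp
    · rw [if_neg (fun h => hR h.2)]
      have h7 : k j ≠ 0 := by
        intro h0
        apply hR
        have h8 : ∀ l' k' : ℝ, 0 < l' → l' • j + k' • a ∈ Φ → k' = 0 := by
          intro l' k' hl' hm
          have hY : l' • j + k' • a ∈ Y Φ a j := mem_Y.2 ⟨hm, l', k', hl', rfl⟩
          have h9 := g4 _ hY
          rw [h0, one_smul, zero_smul, add_zero] at h9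
          obtain ⟨hγP, -, l'', k'', hl'', hk'', he⟩ := hb.Y_sub hG.toRS hP ha hj hja hY
          have hm2 := mono_c hau hju hc hl'' hk'' (he ▸ hG.unit _ hm)
          rw [← he] at hm2
          have h10 := hm2.2 (le_antisymm h9 hm2.1)
          have h11 := (hb.coef ha hj hja l' k').2.1
          rw [h10, hb.toIsDual.ne hj ha hja] at h11
          exact h11.symm
        intro l' k' hm
        rcases lt_trichotomy l' 0 with h | h | h
        · right
          have := h8 (-l') (-k') (by linarith) (by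
            have e : (-l') • j + (-k') • a = -(l' • j + k' • a) := by module
            rw [e]; exact hG.neg _ hm)
          linarith
        · exact Or.inl h
        · exact Or.inr (h8 l' k' h hm)
      have h8 : k j = -(2 * ⟪a, j⟫) := by
        have : k j * (k j + 2 * ⟪a, j⟫) = 0 := by nlinarith
        rcases mul_eq_zero.1 this with h | h
        · exact absurd h h7
        · linarith
      rw [h8]; module

end Pool.Agent.MP_98010f_co
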